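import Pool.Agent.H659R3.MorseLim.Boundary

/-! # Discrete quasi-geodesics: the toolkit -/

set_option autoImplicit false

namespace Pool.Agent.Y33.Free

open Pool.Agent.H659R3.MorseLim

variable {G : Type} [Group G]

/-- `q` is a (discrete) `m`-quasi-geodesic on the times `0, ..., L`. -/
def QG (A : FinGen G) (m L : ℕ) (q : ℕ → G) : Prop :=
  ∀ a k, a + k ≤ L → A.dist (q a) (q (a + k)) ≤ m * k + m ∧
    k ≤ m * A.dist (q a) (q (a + k)) + m

/-- `g` is geodesic on the times `0, ..., l`. -/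
def Geo (A : FinGen G) (l : ℕ) (g : ℕ → G) : Prop :=
  ∀ a k, a + k ≤ l → A.dist (g a) (g (a + k)) = k

variable {A : FinGen G}

theorem QG.mono {m m' L : ℕ} {q : ℕ → G} (h : QG A m L q) (hm : m ≤ m') : QG A m' L q := by
  intro a k hk
  obtain ⟨h1, h2⟩ := h a k hk
  constructor
  · calc _ ≤ m * k + m := h1
      _ ≤ m' * k + m' := by gcongr
  · calc _ ≤ m * A.dist (q a) (q (a + k)) + m := h2
      _ ≤ _ := by gcongr

theorem Geo.qg {l m : ℕ} {g : ℕ → G} (h : Geo A l g) (hm : 1 ≤ m) : QG A m l g := by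
  intro a k hk
  rw [h a k hk]
  have := Nat.mul_le_mul_right k hm
  omega

theorem Geo.sub {l l' a : ℕ} {g : ℕ → G} (h : Geo A l g) (hl : a + l' ≤ l) :
    Geo A l' (fun i => g (a + i)) := by
  intro b k hk
  have := h (a + b) k (by omega)
  simpa [add_assoc] using this

theorem QG.sub {m L L' a : ℕ} {q : ℕ → G} (h : QG A m L q) (hl : a + L' ≤ L) :
    QG A m L' (fun i => q (a + i)) := by
  intro b k hk
  have := h (a + b) k (by omega)
  simpa [add_assoc] using this

theorem QG.take {m L L' : ℕ} {q : ℕ → G} (h : QG A m L q) (hl : L' ≤ L) : QG A m L' q :=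
  fun b k hk => h b k (by omega)

theorem QG.rev {m L : ℕ} {q : ℕ → G} (h : QG A m L q) : QG A m L (fun i => q (L - i)) := by
  intro a k hk
  have h1 := h (L - (a + k)) k (by omega)
  have e : L - (a + k) + k = L - a := by omega
  rw [e] at h1
  simp only
  rw [A.dist_comm]
  exact h1

theorem Geo.rev {l : ℕ} {g : ℕ → G} (h : Geo A l g) : Geo A l (fun i => g (l - i)) := by
  intro a k hk
  have h1 := h (l - (a + k)) k (by omega)
  have e : l - (a + k) + k = l - a := by omega
  rw [e] at h1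
  simp only
  rw [A.dist_comm]
  exact h1

theorem QG.mul {m L : ℕ} {q : ℕ → G} (h : QG A m L q) (x : G) : QG A m L (fun i => x * q i) := by
  intro a k hk
  simp only [A.dist_mul_left]
  exact h a k hk

theorem Geo.mul {l : ℕ} {g : ℕ → G} (h : Geo A l g) (x : G) : Geo A l (fun i => x * g i) := by
  intro a k hk
  simp only [A.dist_mul_left]
  exact h a k hk

theorem QG.congr {m L : ℕ} {q q' : ℕ → G} (h : QG A m L q) (e : ∀ i ≤ L, q' i = q i) :
    QG A m L q' := by
  intro a k hk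
  rw [e a (by omega), e (a + k) hk]
  exact h a k hk

theorem Geo.congr {l : ℕ} {q q' : ℕ → G} (h : Geo A l q) (e : ∀ i ≤ l, q' i = q i) :
    Geo A l q' := by
  intro a k hk
  rw [e a (by omega), e (a + k) hk]
  exact h a k hk

/-- Existence of geodesics. -/
theorem exists_geo (A : FinGen G) (x y : G) :
    ∃ g : ℕ → G, Geo A (A.dist x y) g ∧ g 0 = x ∧ g (A.dist x y) = y := by
  obtain ⟨l, h1, h2, h3⟩ := A.len_spec (x⁻¹ * y)
  have hd : A.dist x y = l.length := h1.symm
  have hsub : ∀ a b, (l.take a).prod * ((l.drop a).take b).prod = (l.take (a + b)).prod := by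
    intro a b
    rw [List.take_add, List.prod_append]
  refine ⟨fun i => x * (l.take i).prod, ?_, by simp, ?_⟩
  · rw [hd]
    intro a k hk
    have e0 : A.dist (x * (l.take a).prod) (x * (l.take (a + k)).prod) =
        A.len ((l.drop a).take k).prod := by
      rw [A.dist_mul_left, FinGen.dist, ← hsub a k]
      congr 1; group
    rw [e0]
    have w1 : A.IsW ((l.drop a).take k) := fun x hx =>
      h2 x (List.mem_of_mem_drop (List.mem_of_mem_take hx))
    have w0 : A.IsW (l.take a) := fun x hx => h2 x (List.mem_of_mem_take hx)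
    have w2 : A.IsW (l.drop (a + k)) := fun x hx => h2 x (List.mem_of_mem_drop hx)
    have i1 := A.len_le w1
    have i0 := A.len_le w0
    have i2 := A.len_le w2
    have l1 : ((l.drop a).take k).length = k := by
      rw [List.length_take, List.length_drop]; omega
    have l0 : (l.take a).length = a := by rw [List.length_take]; omega
    have l2 : (l.drop (a + k)).length = l.length - (a + k) := by rw [List.length_drop]
    rw [l1] at i1
    rw [l0] at i0
    rw [l2] at i2
    have e : l.prod = (l.take a).prod * ((l.drop a).take k).prod * (l.drop (a + k)).prod := by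
      rw [hsub, ← List.prod_append, List.take_append_drop]
    have j1 := A.len_mul_le ((l.take a).prod * ((l.drop a).take k).prod) (l.drop (a + k)).prod
    have j2 := A.len_mul_le (l.take a).prod ((l.drop a).take k).prod
    rw [← e, h3, ← h1] at j1
    omega
  · rw [hd]
    simp only [List.take_length]
    rw [h3]; group

/-- The constant for a change of endpoints by `e`. -/
def cc (m e : ℕ) : ℕ := 3 * m * (2 * e + 1)

theorem le_cc (m e : ℕ) : m ≤ cc m e := by
  unfold cc
  nlinarith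

/-- Change of endpoints. -/
theorem QG.change {m L e : ℕ} {q : ℕ → G} (hm : 1 ≤ m) (hq : QG A m L q) {x y : G}
    (h0 : A.dist (q 0) x ≤ e) (hL : A.dist (q L) y ≤ e) :
    ∃ q' : ℕ → G, QG A (cc m e) (L + 2) q' ∧ q' 0 = x ∧ q' (L + 2) = y ∧
      (∀ t ≤ L, q' (t + 1) = q t) ∧ ∀ i ≤ L + 2, A.dist (q' i) (q (min (i - 1) L)) ≤ e := by
  classical
  refine ⟨fun i => if i = 0 then x else if i = L + 2 then y else q (i - 1), ?_, by simp, by simp,
    ?_, ?_⟩
  · have key : ∀ i ≤ L + 2, A.dist ((fun i => if i = 0 then x else if i = L + 2 then y else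
        q (i - 1)) i) (q (min (i - 1) L)) ≤ e := by
      intro i hi
      simp only
      split_ifs with h1 h2
      · subst h1
        simp only [Nat.zero_sub, Nat.zero_min]
        rwa [A.dist_comm]
      · subst h2
        have : min (L + 2 - 1) L = L := by omega
        rw [this, A.dist_comm]
        exact hL
      · have : min (i - 1) L = i - 1 := by omega
        rw [this]; simp
    intro a k hk
    have k1 := key a (by omega)
    have k2 := key (a + k) hk
    generalize (fun i => if i = 0 then x else if i = L + 2 then y else q (i - 1)) = q' at *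
    -- the clamped times
    obtain ⟨j, hj⟩ : ∃ j, min (a + k - 1) L = min (a - 1) L + j ∧ j ≤ k ∧ k ≤ j + 2 :=
      ⟨min (a + k - 1) L - min (a - 1) L, by omega, by omega, by omega⟩
    obtain ⟨hj1, hj2, hj3⟩ := hj
    rw [hj1] at k2
    obtain ⟨q1, q2⟩ := hq (min (a - 1) L) j (by omega)
    have t1 := A.dist_triangle (q' a) (q (min (a - 1) L)) (q' (a + k))
    have t2 := A.dist_triangle (q (min (a - 1) L)) (q (min (a - 1) L + j)) (q' (a + k))
    have t3 := A.dist_triangle (q (min (a - 1) L)) (q' a) (q (min (a - 1) L + j))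
    have t4 := A.dist_triangle (q' a) (q' (a + k)) (q (min (a - 1) L + j))
    rw [A.dist_comm (q (min (a - 1) L)) (q' a)] at t3
    rw [A.dist_comm (q (min (a - 1) L + j)) (q' (a + k))] at t2
    set d := A.dist (q (min (a - 1) L)) (q (min (a - 1) L + j)) with hd
    set d' := A.dist (q' a) (q' (a + k)) with hd'
    have u1 : d' ≤ m * j + m + 2 * e := by omega
    have u2 : d ≤ d' + 2 * e := by omega
    have c0 : cc m e = 6 * (m * e) + 3 * m := by unfold cc; ring
    have c1 : m ≤ cc m e := le_cc m e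
    have c3 : 1 * e ≤ m * e := Nat.mul_le_mul_right e hm
    constructor
    · have h1 : m * j ≤ m * k := Nat.mul_le_mul_left m hj2
      have h2 : m * k ≤ cc m e * k := Nat.mul_le_mul_right k c1
      omega
    · have h1 : m * d ≤ m * (d' + 2 * e) := Nat.mul_le_mul_left m u2
      have h2 : m * (d' + 2 * e) = m * d' + 2 * (m * e) := by ring
      have h3 : m * d' ≤ cc m e * d' := Nat.mul_le_mul_right d' c1
      omega
  · intro t ht
    simp only
    rw [if_neg (by omega), if_neg (by omega)]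
    simp
  · intro i hi
    simp only
    split_ifs with h1 h2
    · subst h1
      simp only [Nat.zero_sub, Nat.zero_min]
      rwa [A.dist_comm]
    · subst h2
      have : min (L + 2 - 1) L = L := by omega
      rw [this, A.dist_comm]
      exact hL
    · have : min (i - 1) L = i - 1 := by omega
      rw [this]; simp

/-- Every `m`-quasi-geodesic from `x` to `z` passes within `D` of `y`. -/
def R (A : FinGen G) (m D : ℕ) (x y z : G) : Prop :=
  ∀ L q, QG A m L q → q 0 = x → q L = z → ∃ t ≤ L, A.dist (q t) y ≤ D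

theorem R.mono {m m' D D' : ℕ} {x y z : G} (h : R A m D x y z) (hm : m' ≤ m) (hD : D ≤ D') :
    R A m' D' x y z := by
  intro L q hq h0 hL
  obtain ⟨t, ht, h1⟩ := h L q (hq.mono hm) h0 hL
  exact ⟨t, ht, h1.trans hD⟩

theorem R.symm {m D : ℕ} {x y z : G} (h : R A m D x y z) : R A m D z y x := by
  intro L q hq h0 hL
  obtain ⟨t, ht, h1⟩ := h L _ hq.rev (by simpa using hL) (by simpa using h0)
  exact ⟨L - t, by omega, h1⟩

theorem R.mul {m D : ℕ} {x y z : G} (h : R A m D x y z) (g : G) :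
    R A m D (g * x) (g * y) (g * z) := by
  intro L q hq h0 hL
  obtain ⟨t, ht, h1⟩ := h L _ (hq.mul g⁻¹) (by simp [h0]) (by simp [hL])
  refine ⟨t, ht, ?_⟩
  rw [← A.dist_mul_left g⁻¹]
  simpa using h1

theorem R.left (A : FinGen G) (m D : ℕ) (x z : G) : R A m D x x z := by
  intro L q hq h0 hL
  exact ⟨0, by omega, by rw [h0]; simp⟩

theorem R.right (A : FinGen G) (m D : ℕ) (x z : G) : R A m D x z z := by
  intro L q hq h0 hL
  exact ⟨L, le_rfl, by rw [hL]; simp⟩

theorem R.of_dist {m D : ℕ} {x y : G} (z : G) (h : A.dist x y ≤ D) : R A m D x y z := by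
  intro L q hq h0 hL
  exact ⟨0, by omega, by rw [h0]; exact h⟩

theorem R.mid {m D e : ℕ} {x y y' z : G} (h : R A m D x y z) (hy : A.dist y y' ≤ e) :
    R A m (D + e) x y' z := by
  intro L q hq h0 hL
  obtain ⟨t, ht, h1⟩ := h L q hq h0 hL
  exact ⟨t, ht, (A.dist_triangle _ _ _).trans (add_le_add h1 hy)⟩

theorem R.change {m D e L : ℕ} {x y z : G} {q : ℕ → G} (hm : 1 ≤ m) (h : R A (cc m e) D x y z)
    (hq : QG A m L q) (h0 : A.dist (q 0) x ≤ e) (hL : A.dist (q L) z ≤ e) :
    ∃ t ≤ L, A.dist (q t) y ≤ D + e := by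
  obtain ⟨q', h1, h2, h3, -, h4⟩ := hq.change hm h0 hL
  obtain ⟨i, hi, h5⟩ := h _ q' h1 h2 h3
  refine ⟨min (i - 1) L, by omega, ?_⟩
  have := A.dist_triangle (q (min (i - 1) L)) (q' i) y
  have := h4 i hi
  rw [A.dist_comm] at this
  omega

/-- If a quasi-geodesic passes near `x` and near `z`, it passes in between near `y`. -/
theorem R.sub {m D e L s t : ℕ} {x y z : G} {q : ℕ → G} (hm : 1 ≤ m) (h : R A (cc m e) D x y z)
    (hq : QG A m L q) (hs : s ≤ L) (ht : t ≤ L) (h0 : A.dist (q s) x ≤ e)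
    (hL : A.dist (q t) z ≤ e) :
    ∃ i, min s t ≤ i ∧ i ≤ max s t ∧ A.dist (q i) y ≤ D + e := by
  rcases le_total s t with hst | hst
  · obtain ⟨k, rfl⟩ := Nat.exists_eq_add_of_le hst
    obtain ⟨i, hi, h1⟩ := h.change hm (hq.sub (L' := k) (a := s) ht) (by simpa using h0) hL
    exact ⟨s + i, by omega, by omega, h1⟩
  · obtain ⟨k, rfl⟩ := Nat.exists_eq_add_of_le hst
    obtain ⟨i, hi, h1⟩ := h.symm.change hm (hq.sub (L' := k) (a := t) hs) (by simpa using hL) h0
    exact ⟨t + i, by omega, by omega, h1⟩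

theorem R.sub' {m D e L s t : ℕ} {x y z : G} {q : ℕ → G} (hm : 1 ≤ m) (h : R A (cc m e) D x y z)
    (hq : QG A m L q) (hs : s ≤ L) (ht : t ≤ L) (h0 : A.dist (q s) x ≤ e)
    (hL : A.dist (q t) z ≤ e) : ∃ i ≤ L, A.dist (q i) y ≤ D + e := by
  obtain ⟨i, -, h1, h2⟩ := h.sub hm hq hs ht h0 hL
  exact ⟨i, h1.trans (max_le hs ht), h2⟩

/-- Transitivity: `x, w, z` and `x, y, w` give `x, y, z`. -/
theorem R.trans_left {m D e : ℕ} {x y w z : G} (hm : 1 ≤ m) (h : R A m e x w z)
    (h' : R A (cc m e) D x y w) : R A m (D + e) x y z := by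
  intro L q hq h0 hL
  obtain ⟨t, ht, h1⟩ := h L q hq h0 hL
  exact h'.sub' hm hq (Nat.zero_le L) ht (by rw [h0]; simp) h1

/-- Transitivity: `x, w, z` and `w, y, z` give `x, y, z`. -/
theorem R.trans_right {m D e : ℕ} {x y w z : G} (hm : 1 ≤ m) (h : R A m e x w z)
    (h' : R A (cc m e) D w y z) : R A m (D + e) x y z := by
  intro L q hq h0 hL
  obtain ⟨t, ht, h1⟩ := h L q hq h0 hL
  exact h'.sub' hm hq ht le_rfl h1 (by rw [hL]; simp)

/-- Change of the first endpoint. -/
theorem R.change_left {m D e : ℕ} {x x' y z : G} (hm : 1 ≤ m) (h : R A (cc m e) D x y z)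
    (hx : A.dist x' x ≤ e) : R A m (D + e) x' y z := by
  intro L q hq h0 hL
  exact h.change hm hq (by rwa [h0]) (by rw [hL]; simp)

theorem R.change_right {m D e : ℕ} {x y z z' : G} (hm : 1 ≤ m) (h : R A (cc m e) D x y z)
    (hz : A.dist z' z ≤ e) : R A m (D + e) x y z' := by
  intro L q hq h0 hL
  exact h.change hm hq (by rw [h0]; simp) (by rwa [hL])

/-- A point of a quasi-geodesic nearest to `y`. -/
theorem exists_nearest (A : FinGen G) (L : ℕ) (q : ℕ → G) (y : G) :
    ∃ t ≤ L, ∀ i ≤ L, A.dist (q t) y ≤ A.dist (q i) y := by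
  obtain ⟨t, ht, h⟩ := Finset.exists_min_image (Finset.range (L + 1)) (fun i => A.dist (q i) y)
    ⟨0, by simp⟩
  refine ⟨t, by simpa [Nat.lt_succ_iff] using ht, fun i hi => h i ?_⟩
  simpa [Nat.lt_succ_iff] using hi

/-- The path `q` up to the time `t`, followed by `g`. -/
def app (q : ℕ → G) (t : ℕ) (g : ℕ → G) : ℕ → G := fun i => if i ≤ t then q i else g (i - t)

omit [Group G] in
theorem app_le {q g : ℕ → G} {t i : ℕ} (h : i ≤ t) : app q t g i = q i := by simp [app, h]

omit [Group G] in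
theorem app_add {q g : ℕ → G} {t : ℕ} (h : g 0 = q t) (j : ℕ) : app q t g (t + j) = g j := by
  unfold app
  split_ifs with h1
  · have : j = 0 := by omega
    subst this
    simp [h]
  · simp

/-- The nearest point trick. -/
theorem QG.trick {m L t l : ℕ} {q g : ℕ → G} {y : G} (hm : 1 ≤ m) (hq : QG A m L q) (ht : t ≤ L)
    (hn : ∀ i ≤ t, A.dist (q t) y ≤ A.dist (q i) y) (hg : Geo A l g) (h0 : g 0 = q t)
    (hl : g l = y) : QG A (3 * m) (t + l) (app q t g) := by
  intro a k hk
  rcases le_or_gt (a + k) t with h1 | h1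
  · rw [app_le (by omega), app_le h1]
    exact (hq.mono (by omega)) a k (by omega)
  · rcases le_or_gt a t with h2 | h2
    · obtain ⟨j, hj⟩ : ∃ j, a + k = t + j := ⟨a + k - t, by omega⟩
      obtain ⟨i, rfl⟩ := Nat.exists_eq_add_of_le h2
      rw [hj, app_add h0, app_le (by omega)]
      obtain ⟨q1, q2⟩ := hq a i ht
      have g1 := hg 0 j (by omega)
      have g2 := hg j (l - j) (by omega)
      have e : j + (l - j) = l := by omega
      rw [e, hl] at g2
      rw [zero_add, h0] at g1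
      have g3 := hg 0 l (by omega)
      rw [zero_add, h0, hl] at g3
      have n1 := hn a (by omega)
      have t1 := A.dist_triangle (q a) (g j) y
      have t2 := A.dist_triangle (q a) (q (a + i)) (g j)
      have t3 := A.dist_triangle (q a) (g j) (q (a + i))
      rw [A.dist_comm (g j) (q (a + i))] at t3
      set d := A.dist (q a) (g j)
      set d1 := A.dist (q a) (q (a + i))
      have hk' : k = i + j := by omega
      subst hk'
      have d2 : j ≤ d := by omega
      have d3 : d1 ≤ 2 * d := by omega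
      have d4 : m * d1 ≤ m * (2 * d) := Nat.mul_le_mul_left m d3
      have d5 : 1 * j ≤ m * j := Nat.mul_le_mul_right j hm
      have d6 : 1 * d ≤ m * d := Nat.mul_le_mul_right d hm
      constructor
      · nlinarith
      · nlinarith
    · obtain ⟨j, rfl⟩ := Nat.exists_eq_add_of_le h2.le
      rw [add_assoc, app_add h0, app_add h0]
      exact (hg.qg (by omega : 1 ≤ 3 * m)) j k (by omega)

/-- Any two `m`-quasi-geodesics from `x` to `y` are `M m`-close. -/
def U (A : FinGen G) (M : ℕ → ℕ) (x y : G) : Prop :=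
  ∀ m, 1 ≤ m → ∀ L q L' q', QG A m L q → QG A m L' q' → q 0 = x → q L = y → q' 0 = x → q' L' = y →
    ∀ t ≤ L, ∃ t' ≤ L', A.dist (q t) (q' t') ≤ M m

theorem U.symm {M : ℕ → ℕ} {x y : G} (h : U A M x y) : U A M y x := by
  intro m hm L q L' q' hq hq' h1 h2 h3 h4 t ht
  obtain ⟨t', ht', h5⟩ := h m hm L _ L' _ hq.rev hq'.rev (by simpa using h2) (by simpa using h1)
    (by simpa using h4) (by simpa using h3) (L - t) (by omega)
  refine ⟨L' - t', by omega, ?_⟩
  have : L - (L - t) = t := by omega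
  rwa [this] at h5

theorem U.mul {M : ℕ → ℕ} {x y : G} (h : U A M x y) (g : G) : U A M (g * x) (g * y) := by
  intro m hm L q L' q' hq hq' h1 h2 h3 h4 t ht
  obtain ⟨t', ht', h5⟩ := h m hm L _ L' _ (hq.mul g⁻¹) (hq'.mul g⁻¹) (by simp [h1]) (by simp [h2])
    (by simp [h3]) (by simp [h4]) t ht
  rw [A.dist_mul_left] at h5
  exact ⟨t', ht', h5⟩

theorem U.mono {M M' : ℕ → ℕ} {x y : G} (h : U A M x y) (hM : ∀ m, M m ≤ M' m) : U A M' x y := by
  intro m hm L q L' q' hq hq' h1 h2 h3 h4 t ht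
  obtain ⟨t', ht', h5⟩ := h m hm L _ L' _ hq hq' h1 h2 h3 h4 t ht
  exact ⟨t', ht', h5.trans (hM m)⟩

/-- `U` with a change of endpoints. -/
theorem U.change {M : ℕ → ℕ} {x y : G} {m e L L' s t s' t' : ℕ} {q q' : ℕ → G} (h : U A M x y)
    (hm : 1 ≤ m) (hq : QG A m L q) (hq' : QG A m L' q') (hs : s ≤ L) (ht : t ≤ L) (hs' : s' ≤ L')
    (ht' : t' ≤ L') (h1 : A.dist (q s) x ≤ e) (h2 : A.dist (q t) y ≤ e)
    (h3 : A.dist (q' s') x ≤ e) (h4 : A.dist (q' t') y ≤ e) {i : ℕ} (hi1 : min s t ≤ i)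
    (hi2 : i ≤ max s t) : ∃ j, min s' t' ≤ j ∧ j ≤ max s' t' ∧
      A.dist (q i) (q' j) ≤ M (cc m e) + e := by
  -- first the case of ordered times
  have key : ∀ (x y : G), U A M x y → ∀ (L L' : ℕ) (q q' : ℕ → G), QG A m L q → QG A m L' q' →
      A.dist (q 0) x ≤ e → A.dist (q L) y ≤ e → A.dist (q' 0) x ≤ e → A.dist (q' L') y ≤ e →
      ∀ i ≤ L, ∃ j ≤ L', A.dist (q i) (q' j) ≤ M (cc m e) + e := by
    intro x y h L L' q q' hq hq' h1 h2 h3 h4 i hi
    obtain ⟨p, p1, p2, p3, p4, p5⟩ := hq.change hm h1 h2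
    obtain ⟨p', p1', p2', p3', p4', p5'⟩ := hq'.change hm h3 h4
    obtain ⟨j, hj, h6⟩ := h (cc m e) (hm.trans (le_cc m e)) _ p _ p' p1 p1' p2 p3 p2' p3' (i + 1)
      (by omega)
    refine ⟨min (j - 1) L', by omega, ?_⟩
    rw [p4 i hi] at h6
    have := A.dist_triangle (q i) (p' j) (q' (min (j - 1) L'))
    have := p5' j hj
    omega
  -- the reversals
  have sub : ∀ (L s t : ℕ) (q : ℕ → G), QG A m L q → s ≤ L → t ≤ L →
      ∃ (l : ℕ) (p : ℕ → G), QG A m l p ∧ p 0 = q s ∧ p l = q t ∧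
        (∀ i, min s t ≤ i → i ≤ max s t → ∃ j ≤ l, p j = q i) ∧
        ∀ j ≤ l, ∃ i, min s t ≤ i ∧ i ≤ max s t ∧ p j = q i := by
    intro L s t q hq hs ht
    rcases le_total s t with hst | hst
    · rw [min_eq_left hst, max_eq_right hst]
      obtain ⟨k, rfl⟩ := Nat.exists_eq_add_of_le hst
      refine ⟨k, fun i => q (s + i), hq.sub ht, by simp, rfl, ?_, ?_⟩
      · intro i h1 h2
        refine ⟨i - s, by omega, ?_⟩
        have : s + (i - s) = i := by omega
        simp only [this]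
      · intro j hj
        exact ⟨s + j, by omega, by omega, rfl⟩
    · rw [min_eq_right hst, max_eq_left hst]
      obtain ⟨k, rfl⟩ := Nat.exists_eq_add_of_le hst
      refine ⟨k, fun i => q (t + (k - i)), (hq.sub (L' := k) (a := t) hs).rev, by simp,
        by simp, ?_, ?_⟩
      · intro i h1 h2
        refine ⟨t + k - i, by omega, ?_⟩
        have : t + (k - (t + k - i)) = i := by omega
        simp only [this]
      · intro j hj
        exact ⟨t + (k - j), by omega, by omega, rfl⟩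
  obtain ⟨l, p, a1, a2, a3, a4, a5⟩ := sub L s t q hq hs ht
  obtain ⟨l', p', b1, b2, b3, b4, b5⟩ := sub L' s' t' q' hq' hs' ht'
  obtain ⟨j, hj, hj'⟩ := a4 i hi1 hi2
  obtain ⟨j', hj1, hj2⟩ := key x y h l l' p p' a1 b1 (by rwa [a2]) (by rwa [a3]) (by rwa [b2])
    (by rwa [b3]) j hj
  obtain ⟨i', c1, c2, c3⟩ := b5 j' hj1
  refine ⟨i', c1, c2, ?_⟩
  rwa [hj', c3] at hj2

/-- `U` for points at bounded distance. -/
theorem U.of_dist {x y : G} {e : ℕ} (h : A.dist x y ≤ e) :
    U A (fun m => m * (m * e + m) + m) x y := by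
  intro m hm L q L' q' hq hq' h1 h2 h3 h4 t ht
  refine ⟨0, Nat.zero_le _, ?_⟩
  have e1 := (hq 0 L (by omega)).2
  rw [zero_add, h1, h2] at e1
  have e2 := (hq 0 t (by omega)).1
  rw [zero_add] at e2
  rw [h3, ← h1, A.dist_comm]
  have : t ≤ m * e + m := by
    have : m * A.dist x y ≤ m * e := Nat.mul_le_mul_left m h
    omega
  have : m * t ≤ m * (m * e + m) := Nat.mul_le_mul_left m this
  simp only
  omega

/-- Discrete intermediate values. -/
theorem exists_step (R : ℕ) (τ : ℕ → ℕ) (t : ℕ) (h0 : τ 0 ≤ t) (hR : t ≤ τ R) (hR0 : 0 < R) :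
    ∃ s < R, τ s ≤ t ∧ t ≤ τ (s + 1) := by
  classical
  have hex : ∃ n, t ≤ τ (n + 1) := ⟨R - 1, by rwa [Nat.sub_add_cancel hR0]⟩
  have h1 := Nat.find_spec hex
  have h2 : Nat.find hex ≤ R - 1 := Nat.find_min' hex (by rwa [Nat.sub_add_cancel hR0])
  refine ⟨Nat.find hex, by omega, ?_, h1⟩
  rcases Nat.eq_zero_or_pos (Nat.find hex) with h | h
  · rw [h]; exact h0
  · have := Nat.find_min hex (m := Nat.find hex - 1) (by omega)
    rw [Nat.sub_add_cancel h] at this
    omega

/-- Many vertices: if quasi-geodesics from `v 0` to `v n` pass near all the `v s`, and consecutive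
`v s` are uniformly `U`-pairs, then `(v 0, v n)` is a `U`-pair. -/
theorem U.chain {M E : ℕ → ℕ} {n : ℕ} (hn : 0 < n) {v : ℕ → G} (hU : ∀ s < n, U A M (v s) (v (s + 1)))
    (hR : ∀ m, 1 ≤ m → ∀ s ≤ n, R A m (E m) (v 0) (v s) (v n)) :
    U A (fun m => M (cc m (E m)) + E m) (v 0) (v n) := by
  classical
  intro m hm L q L' q' hq hq' h1 h2 h3 h4 t ht
  have a : ∀ s ≤ n, ∃ τ ≤ L, A.dist (q τ) (v s) ≤ E m := fun s hs => hR m hm s hs L q hq h1 h2
  have a' : ∀ s ≤ n, ∃ τ ≤ L', A.dist (q' τ) (v s) ≤ E m := fun s hs => hR m hm s hs L' q' hq' h3 h4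
  have b : ∀ s, ∃ τ ≤ L, (s ≤ n → A.dist (q τ) (v s) ≤ E m) ∧ (s = 0 → τ = 0) ∧ (s = n → τ = L) := by
    intro s
    rcases Nat.eq_zero_or_pos s with h | h
    · refine ⟨0, by omega, fun _ => ?_, fun _ => rfl, fun h' => by omega⟩
      rw [h1, h]; simp
    · by_cases hsn : s = n
      · refine ⟨L, le_rfl, fun _ => ?_, fun h' => by omega, fun _ => rfl⟩
        rw [h2, hsn]; simp
      · by_cases hs : s ≤ n
        · obtain ⟨τ, x1, x2⟩ := a s hs
          exact ⟨τ, x1, fun _ => x2, fun h' => by omega, fun h' => absurd h' hsn⟩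
        · exact ⟨0, by omega, fun h' => absurd h' hs, fun h' => by omega, fun h' => absurd h' hsn⟩
  choose τ b1 b2 b3 b4 using b
  obtain ⟨s, hs, c1, c2⟩ := exists_step n τ t (by rw [b3 0 rfl]; omega) (by rw [b4 n rfl]; exact ht)
    hn
  obtain ⟨σ, x1, x2⟩ := a' s hs.le
  obtain ⟨σ', y1, y2⟩ := a' (s + 1) hs
  obtain ⟨j, -, j2, j3⟩ := (hU s hs).change hm hq hq' (b1 s) (b1 (s + 1)) x1 y1 (b2 s hs.le)
    (b2 (s + 1) hs) x2 y2 (i := t) ((min_le_left _ _).trans c1) (c2.trans (le_max_right _ _))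
  exact ⟨j, j2.trans (max_le x1 y1), j3⟩

theorem U.toR {M : ℕ → ℕ} {x y : G} (h : U A M x y) {l : ℕ} {g : ℕ → G} (hg : Geo A l g)
    (h0 : g 0 = x) (hl : g l = y) {m : ℕ} (hm : 1 ≤ m) {c : ℕ} (hc : c ≤ l) :
    R A m (M m) x (g c) y := by
  intro L q hq h1 h2
  obtain ⟨t, ht, h3⟩ := h m hm l g L q (hg.qg hm) hq h0 hl h1 h2 c hc
  exact ⟨t, ht, by rwa [A.dist_comm]⟩

end Pool.Agent.Y33.Free
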