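import Pool.Agent.Y33.Free.Ray

/-! # A `σ`-compact Morse boundary is covered by countably many gauges -/

set_option autoImplicit false

namespace Pool.Agent.Y33.Free

open Pool.Agent.H659R3.MorseLim Topology

variable {G : Type} [Group G] {A : FinGen G}

theorem MorseRay.cls_eq_iff (γ γ' : MorseRay A) : γ.cls = γ'.cls ↔ FinHaus A γ.path γ'.path :=
  Quotient.eq (r := raySetoid A)

/-- The recurrence gauge of `N`-Morse rays. -/
noncomputable def rF (N : Gauge) : ℕ → ℕ := fun m => 3 * dg N m + 2 * m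

theorem NRay.rec {N : Gauge} (γ : NRay A N) : Rec A (rF N) γ.path :=
  (DM.of_isMorse γ.morse).toRec (GeoRay.of_isGeod γ.geod)

theorem rec_of_isMorse {N : Gauge} {γ : ℕ → G} (hg : IsGeod A Set.univ γ)
    (h : IsMorse A N Set.univ γ) : Rec A (rF N) γ :=
  (DM.of_isMorse h).toRec (GeoRay.of_isGeod hg)

theorem NRay.close {N : Gauge} (γ : NRay A N) (γ' : MorseRay A) (h : γ.cls = γ'.cls) (t : ℕ) :
    A.dist (γ.path t) (γ'.path t) ≤ asy (rF N) 0 := by
  have h1 : FinHaus A γ.path γ'.path := (MorseRay.cls_eq_iff γ.ray γ').1 h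
  obtain ⟨D, hD, -⟩ := h1
  exact asymp_close (GeoRay.of_isGeod γ.geod) (GeoRay.of_isGeod γ'.geod) (NRay.rec γ)
    (by rw [γ.zero, γ'.zero]; simp) hD t

/-- The defect of all Morse rays in the class `ξ` is at most `v` for `m`-quasi-geodesics. -/
def P (ξ : MorseBoundary A) (m v : ℕ) : Prop :=
  ∀ γ : MorseRay A, γ.cls = ξ → ∀ L q, QG A m L q → (∃ a, q 0 = γ.path a) →
    (∃ b, q L = γ.path b) → ∀ t ≤ L, ∃ n, A.dist (q t) (γ.path n) ≤ v

theorem P.mono {ξ : MorseBoundary A} {m v v' : ℕ} (h : P ξ m v) (hv : v ≤ v') : P ξ m v' := by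
  intro γ hγ L q hq h0 hL t ht
  obtain ⟨n, hn⟩ := h γ hγ L q hq h0 hL t ht
  exact ⟨n, hn.trans hv⟩

/-- The gauge for all the rays in a class of the stratum `N`. -/
noncomputable def V (N : Gauge) : ℕ → ℕ :=
  gU (fun m => rF N (cc m (asy (rF N) 0)) + asy (rF N) 0 + asy (rF N) 0)

theorem P_of_NRay {N : Gauge} (γ : NRay A N) {m : ℕ} (hm : 1 ≤ m) : P γ.cls m (V N m) := by
  intro γ' hγ' L q hq h0 hL t ht
  have hc := NRay.close γ γ' hγ'.symm
  have hR : Rec A _ γ'.path := fun l => (NRay.rec γ l).change (fun i _ => hc i)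
  exact hR.toDM (GeoRay.of_isGeod γ'.geod) m hm L q hq h0 hL t ht

theorem exists_NRay (ξ : MorseBoundary A) : ∃ (N : Gauge) (γ : NRay A N), γ.cls = ξ := by
  obtain ⟨γ, rfl⟩ : ∃ γ : MorseRay A, γ.cls = ξ := Quotient.exists_rep (s := raySetoid A) ξ
  obtain ⟨N, hN⟩ := γ.morse
  exact ⟨N, ⟨γ.path, γ.zero, γ.geod, hN⟩, rfl⟩

/-- A set of classes with finitely many points in each stratum is closed. -/
theorem isClosed_of_strata {S : Set (MorseBoundary A)}
    (h : ∀ N : Gauge, {x ∈ S | ∃ γ : NRay A N, γ.cls = x}.Finite) : IsClosed S := by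
  classical
  rw [← isOpen_compl_iff, isOpen_boundary_iff]
  intro N γ hγ
  -- for every point of `S` in the stratum, a radius
  have key : ∀ y ∈ {x ∈ S | ∃ γ : NRay A N, γ.cls = x}, ∃ n : ℕ, ∀ γ' : NRay A N,
      (∀ k ≤ n, γ'.path k = γ.path k) → γ'.cls ≠ y := by
    rintro y ⟨hy, β, hβ⟩
    by_contra hcon
    push Not at hcon
    have hc : ∀ t, A.dist (β.path t) (γ.path t) ≤ asy (rF N) 0 := by
      intro t
      obtain ⟨γ', h1, h2⟩ := hcon t
      have := NRay.close β γ'.ray (hβ.trans h2.symm) t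
      have e : γ'.ray.path t = γ.path t := h1 t le_rfl
      rwa [e] at this
    have : β.cls = γ.cls := (MorseRay.cls_eq_iff β.ray γ.ray).2 (finHaus_of_pointwise hc)
    apply hγ
    rw [← this, hβ]
    exact hy
  choose! n hn using key
  obtain ⟨b, hb⟩ := ((h N).image n).bddAbove
  refine ⟨b, fun γ' h' hS => ?_⟩
  have hmem : γ'.cls ∈ {x ∈ S | ∃ γ : NRay A N, γ.cls = x} := ⟨hS, γ', rfl⟩
  exact hn _ hmem γ' (fun k hk => h' k (hk.trans (hb ⟨_, hmem, rfl⟩))) rfl

/-- On a compact set, the defect is bounded. -/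
theorem bounded_of_isCompact {K : Set (MorseBoundary A)} (hK : IsCompact K) {m : ℕ} (hm : 1 ≤ m) :
    ∃ B, ∀ ξ ∈ K, P ξ m B := by
  by_contra hcon
  push Not at hcon
  choose ξ h1 h2 using hcon
  have hfin : ∀ N : Gauge, {x ∈ Set.range ξ | ∃ γ : NRay A N, γ.cls = x}.Finite := by
    intro N
    refine ((Set.finite_lt_nat (V N m)).image ξ).subset ?_
    rintro x ⟨⟨i, rfl⟩, γ, hγ⟩
    refine ⟨i, ?_, rfl⟩
    by_contra hi
    have hi : V N m ≤ i := not_lt.1 hi
    apply h2 i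
    rw [← hγ]
    exact (P_of_NRay γ hm).mono hi
  have hinf : (Set.range ξ).Infinite := by
    intro hf
    have : ∀ x : MorseBoundary A, ∃ v, P x m v := by
      intro x
      obtain ⟨N, γ, rfl⟩ := exists_NRay x
      exact ⟨_, P_of_NRay γ hm⟩
    choose v hv using this
    obtain ⟨b, hb⟩ := (hf.image v).bddAbove
    apply h2 b
    exact (hv _).mono (hb ⟨ξ b, ⟨b, rfl⟩, rfl⟩)
  obtain ⟨x, hx, hacc⟩ := hinf.exists_accPt_of_subset_isCompact hK (by
    rintro _ ⟨i, rfl⟩; exact h1 i)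
  have hcl : IsClosed (Set.range ξ \ {x}) := by
    apply isClosed_of_strata
    intro N
    exact (hfin N).subset (by rintro y ⟨⟨h3, -⟩, h4⟩; exact ⟨h3, h4⟩)
  rw [accPt_iff_nhds] at hacc
  obtain ⟨y, ⟨hy1, hy2⟩, hy3⟩ := hacc (Set.range ξ \ {x})ᶜ
    (hcl.isOpen_compl.mem_nhds (by simp))
  exact hy1 ⟨hy2, hy3⟩

/-- If the Morse boundary is `σ`-compact, countably many gauges suffice for all the Morse rays. -/
theorem countable_gauges (A : FinGen G) [SigmaCompactSpace (MorseBoundary A)] :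
    ∃ f : ℕ → ℕ → ℕ, ∀ γ : MorseRay A, ∃ k, DM A (f k) γ.path := by
  have h : ∀ k m : ℕ, ∃ B, 1 ≤ m → ∀ ξ ∈ compactCovering (MorseBoundary A) k, P ξ m B := by
    intro k m
    by_cases hm : 1 ≤ m
    · obtain ⟨B, hB⟩ := bounded_of_isCompact (isCompact_compactCovering (MorseBoundary A) k) hm
      exact ⟨B, fun _ => hB⟩
    · exact ⟨0, fun h => absurd h hm⟩
  choose f hf using h
  refine ⟨f, fun γ => ?_⟩
  obtain ⟨k, hk⟩ := exists_mem_compactCovering γ.cls
  exact ⟨k, fun m hm L q hq h0 hL t ht => hf k m hm _ hk γ rfl L q hq h0 hL t ht⟩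

end Pool.Agent.Y33.Free
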