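import Pool.Agent.Y33.Free.NoFix

/-! # The alphabet: four rays, their limits backwards, connecting elements -/

set_option autoImplicit false

namespace Pool.Agent.Y33.Free

open Pool.Agent.H659R3.MorseLim Filter

variable {G : Type} [Group G] {A : FinGen G}

/-- Limits along an ultrafilter of sequences of paths from `1`. -/
theorem exists_limit (A : FinGen G) (U : Ultrafilter ℕ) (g : ℕ → ℕ → G) (b : ℕ → ℕ)
    (hg : ∀ a, ∀ᶠ n in (U : Filter ℕ), A.len (g n a) ≤ b a) :
    ∃ ζ : ℕ → G, ∀ T, ∀ᶠ n in (U : Filter ℕ), ∀ a ≤ T, g n a = ζ a := by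
  have h : ∀ a, ∃ v : G, ∀ᶠ n in (U : Filter ℕ), g n a = v := by
    intro a
    have h1 : (⋃ v ∈ {v : G | A.len v ≤ b a}, {n : ℕ | g n a = v}) ∈ U := by
      refine mem_of_superset (hg a) fun n hn => ?_
      simp only [Set.mem_iUnion]
      exact ⟨g n a, hn, rfl⟩
    rw [Ultrafilter.finite_biUnion_mem_iff (ball_finite A (b a))] at h1
    obtain ⟨v, -, hv⟩ := h1
    exact ⟨v, hv⟩
  choose ζ hζ using h
  refine ⟨ζ, fun T => ?_⟩
  have : ∀ᶠ n in (U : Filter ℕ), ∀ a ∈ Finset.range (T + 1), g n a = ζ a := by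
    rw [Filter.eventually_all_finset]
    intro a _
    exact hζ a
  filter_upwards [this] with n hn a ha
  exact hn a (by simpa [Nat.lt_succ_iff] using ha)

/-- The backward segments `γ(n)⁻¹ γ(n - a)` of a ray. -/
def back (γ : ℕ → G) (n a : ℕ) : G := (γ n)⁻¹ * γ (n - a)

theorem back_zero (γ : ℕ → G) (n : ℕ) : back γ n 0 = 1 := by simp [back]

theorem back_geo {γ : ℕ → G} (hg : GeoRay A γ) (n : ℕ) : Geo A n (back γ n) :=
  ((hg n).rev).mul _

theorem back_rec {F : ℕ → ℕ} {γ : ℕ → G} (hR : Rec A F γ) (n : ℕ) : RecOn A F n (back γ n) :=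
  ((hR n).rev).mul _

/-- Some non-principal ultrafilter. -/
noncomputable def uf : Ultrafilter ℕ := hyperfilter ℕ

theorem uf_ge (n : ℕ) : ∀ᶠ k in (uf : Filter ℕ), n ≤ k :=
  (Nat.hyperfilter_le_atTop) (eventually_ge_atTop n)

/-- The limit of the backward segments. -/
theorem exists_back {F : ℕ → ℕ} {γ : ℕ → G} (hg : GeoRay A γ) (hR : Rec A F γ) :
    ∃ ζ : ℕ → G, GeoRay A ζ ∧ Rec A F ζ ∧ ζ 0 = 1 ∧
      ∀ T, ∀ᶠ n in (uf : Filter ℕ), ∀ a ≤ T, back γ n a = ζ a := by
  obtain ⟨ζ, hζ⟩ := exists_limit A uf (back γ) (fun a => a) (by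
    intro a
    filter_upwards [uf_ge a] with n hn
    have := (back_geo hg n).dist_eq (a := 0) (b := a) (by omega) hn
    rw [back_zero, A.dist_one_left] at this
    omega)
  have key : ∀ T, ∃ n, T ≤ n ∧ ∀ a ≤ T, ζ a = back γ n a := by
    intro T
    obtain ⟨n, h1, h2⟩ := ((uf_ge T).and (hζ T)).exists
    exact ⟨n, h1, fun a ha => (h2 a ha).symm⟩
  refine ⟨ζ, fun l => ?_, fun l => ?_, ?_, hζ⟩
  · obtain ⟨n, h1, h2⟩ := key l
    exact Geo.congr (fun a k hk => back_geo hg n a k (by omega)) h2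
  · obtain ⟨n, h1, h2⟩ := key l
    exact ((back_rec hR n).mono (fun _ => le_rfl) h1).congr h2
  · obtain ⟨n, h1, h2⟩ := key 0
    rw [h2 0 le_rfl, back_zero]

/-- With three pairwise non asymptotic rays, the group fixes no ray. -/
theorem exists_move {F : ℕ → ℕ} {α β η₁ η₂ η₃ : ℕ → G} (hα : GeoRay A α)
    (hαR : Rec A F α) (hα0 : α 0 = 1) (h1 : GeoRay A η₁) (h2 : GeoRay A η₂) (h3 : GeoRay A η₃)
    (r1 : Rec A F η₁) (r2 : Rec A F η₂) (r3 : Rec A F η₃) (z1 : η₁ 0 = 1) (z2 : η₂ 0 = 1)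
    (z3 : η₃ 0 = 1) (n12 : ¬ FinHaus A η₁ η₂) (n13 : ¬ FinHaus A η₁ η₃)
    (n23 : ¬ FinHaus A η₂ η₃) : ∃ k : G, ¬ FinHaus A (fun n => k * α n) β := by
  by_contra hcon
  push Not at hcon
  have hαβ : FinHaus A α β := by simpa using hcon 1
  have hfix : ∀ k : G, FinHaus A (fun n => k * α n) α := fun k => (hcon k).trans hαβ.symm
  have key : ∀ {η η' : ℕ → G}, GeoRay A η → GeoRay A η' → Rec A F η → Rec A F η' → η 0 = 1 →
      η' 0 = 1 → ¬ FinHaus A η α → ¬ FinHaus A η' α → ¬ FinHaus A η η' → False := by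
    intro η η' a1 a2 a3 a4 a5 a6 a7 a8 a9
    obtain ⟨k, hk⟩ := no_fix hα a1 a2 hαR a3 a4 hα0 a5 a6 a7 a8 a9
    exact hk (hfix k)
  by_cases c1 : FinHaus A η₁ α
  · exact key h2 h3 r2 r3 z2 z3 (fun h => n12 (c1.trans h.symm)) (fun h => n13 (c1.trans h.symm))
      n23
  · by_cases c2 : FinHaus A η₂ α
    · exact key h1 h3 r1 r3 z1 z3 c1 (fun h => n23 (c2.trans h.symm)) n13
    · exact key h1 h2 r1 r2 z1 z2 c1 c2 n12

/-- The types of letters: `(i, true)` for the `i`-th generator, `(i, false)` for its inverse. -/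
abbrev S := Fin 2 × Bool

/-- The inverse type. -/
def bar (s : S) : S := (s.1, !s.2)

@[simp] theorem bar_bar (s : S) : bar (bar s) = s := by simp [bar]

theorem bar_ne (s : S) : bar s ≠ s := by
  intro h
  have := congrArg Prod.snd h
  simp [bar] at this

/-- The data from which the letters are built. -/
structure LData (A : FinGen G) where
  F : ℕ → ℕ
  γ : S → ℕ → G
  k : S → G
  φ : ℕ → ℕ
  e : ℕ
  C : ℕ
  geo : ∀ s, GeoRay A (γ s)
  isRec : ∀ s, Rec A F (γ s)
  zero : ∀ s, γ s 0 = 1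
  k_bar : ∀ s, k (bar s) = (k s)⁻¹
  k_len : ∀ s, A.len (k s) ≤ e
  φ_ge : ∀ n, n ≤ φ n
  main : ∀ s s', s ≠ s' → ∀ a b, a + b ≤ A.dist (γ s a) (γ s' b) + C
  mid : ∀ s n a b, a ≤ φ n → b ≤ φ n →
    a + b ≤ A.dist (back (γ s) (φ n) a) (k s * back (γ (bar s)) (φ n) b) + C

theorem exists_LData (A : FinGen G) (h : Infinite (MorseBoundary A)) : Nonempty (LData A) := by
  classical
  -- four rays
  obtain ⟨ξ, hξ⟩ : ∃ ξ : S → MorseBoundary A, Function.Injective ξ := by
    obtain ⟨f⟩ := (Infinite.natEmbedding (MorseBoundary A))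
    have : ∃ g : S → ℕ, Function.Injective g := ⟨fun s => 2 * s.1.val + s.2.toNat, by decide⟩
    obtain ⟨g, hg⟩ := this
    rename_i hf
    exact ⟨f ∘ g, hf.comp hg⟩
  have hrep : ∀ s, ∃ (N : Gauge) (γ : NRay A N), γ.cls = ξ s := fun s => exists_NRay (ξ s)
  choose N γ hγ using hrep
  set F : ℕ → ℕ := fun m => ∑ s : S, rF (N s) m with hF
  have hFle : ∀ s m, rF (N s) m ≤ F m := fun s m =>
    Finset.single_le_sum (f := fun s => rF (N s) m) (fun _ _ => Nat.zero_le _) (Finset.mem_univ s)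
  have geo : ∀ s, GeoRay A (γ s).path := fun s => GeoRay.of_isGeod (γ s).geod
  have hrec : ∀ s, Rec A F (γ s).path := fun s => (NRay.rec (γ s)).mono (hFle s)
  have zero : ∀ s, (γ s).path 0 = 1 := fun s => (γ s).zero
  have hne : ∀ s s', s ≠ s' → ¬ FinHaus A (γ s).path (γ s').path := by
    intro s s' hs hF
    apply hs
    apply hξ
    rw [← hγ s, ← hγ s']
    exact (MorseRay.cls_eq_iff (γ s).ray (γ s').ray).2 hF
  -- backward limits
  have hback := fun s => exists_back (geo s) (hrec s)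
  choose ζ z1 z2 z3 z4 using hback
  -- connecting elements
  have hex : ∀ i : Fin 2, ∃ κ : G, ¬ FinHaus A (fun n => κ * ζ (i, false) n) (ζ (i, true)) := by
    intro i
    exact exists_move (z1 _) (z2 _) (z3 _) (geo (0, true)) (geo (0, false)) (geo (1, true))
      (hrec _) (hrec _) (hrec _) (zero _) (zero _) (zero _) (hne _ _ (by decide))
      (hne _ _ (by decide)) (hne _ _ (by decide))
  choose κ hκ using hex
  set k : S → G := fun s => if s.2 then κ s.1 else (κ s.1)⁻¹ with hk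
  have k_bar : ∀ s, k (bar s) = (k s)⁻¹ := by
    rintro ⟨i, b⟩
    cases b <;> simp [hk, bar]
  have hkζ : ∀ s, ¬ FinHaus A (ζ s) (fun n => k s * ζ (bar s) n) := by
    rintro ⟨i, b⟩ hfh
    cases b
    · apply hκ i
      have h1 := FinHaus.mul hfh (κ i)
      have e : (fun n => κ i * (k (i, false) * ζ (bar (i, false)) n)) = ζ (i, true) := by
        funext n; simp [hk, bar]
      rw [e] at h1
      exact h1
    · apply hκ i
      have e : (fun n => k (i, true) * ζ (bar (i, true)) n) = fun n => κ i * ζ (i, false) n := by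
        funext n; simp [hk, bar]
      rw [e] at hfh
      exact hfh.symm
  set e := ∑ s : S, A.len (k s) with he
  have k_len : ∀ s, A.len (k s) ≤ e := fun s =>
    Finset.single_le_sum (f := fun s => A.len (k s)) (fun _ _ => Nat.zero_le _) (Finset.mem_univ s)
  -- the times
  have hT := fun s => exists_far (hkζ s) (fD F e)
  choose T hT using hT
  have hI : ∀ᶠ n in (uf : Filter ℕ), ∀ s : S, ∀ a ≤ T s + T (bar s), back (γ s).path n a = ζ s a := by
    rw [Filter.eventually_all]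
    intro s
    exact z4 s _
  have hφ : ∀ n, ∃ m, n ≤ m ∧ ∀ s : S, ∀ a ≤ T s + T (bar s), back (γ s).path m a = ζ s a := by
    intro n
    obtain ⟨m, h1, h2⟩ := ((uf_ge n).and hI).exists
    exact ⟨m, h1, h2⟩
  choose φ φ_ge hφ using hφ
  -- the products
  have hmain : ∀ p : S × S, ∃ C, p.1 ≠ p.2 → ∀ a b, a + b ≤ A.dist ((γ p.1).path a)
      ((γ p.2).path b) + C := by
    rintro ⟨s, s'⟩
    by_cases hs : s = s'
    · exact ⟨0, fun h => absurd hs h⟩
    · obtain ⟨C, hC⟩ := exists_prod (geo s) (geo s') (hrec s) (hrec s') (hne s s' hs)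
      exact ⟨C, fun _ => hC⟩
  choose C1 hC1 using hmain
  have hC1le : ∀ p, C1 p ≤ ∑ p, C1 p := fun p =>
    Finset.single_le_sum (f := C1) (fun _ _ => Nat.zero_le _) (Finset.mem_univ p)
  have hC2le : ∀ s, 2 * T s + fK F e ≤ ∑ s, (2 * T s + fK F e) := fun s =>
    Finset.single_le_sum (f := fun s => 2 * T s + fK F e) (fun _ _ => Nat.zero_le _)
      (Finset.mem_univ s)
  refine ⟨⟨F, fun s => (γ s).path, k, φ, e, (∑ p, C1 p) + ∑ s, (2 * T s + fK F e), geo, hrec, zero,
    k_bar, k_len, φ_ge, ?_, ?_⟩⟩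
  · intro s s' hs a b
    have h1 := hC1 (s, s') hs a b
    have h2 := hC1le (s, s')
    simp only at h1
    omega
  · intro s n a b ha hb
    have h1 := prod_bdd (γ := ζ s) (γ' := fun a => k s * ζ (bar s) a) (σ := back (γ s).path (φ n))
      (τ := fun a => k s * back (γ (bar s)).path (φ n) a) (hT s) (back_geo (geo s) (φ n))
      ((back_geo (geo (bar s)) (φ n)).mul (k s))
      (back_rec (hrec s) (φ n)) ((back_rec (hrec (bar s)) (φ n)).mul (k s)) (by
        simp only [back_zero, mul_one, A.dist_one_left]; exact k_len s)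
      (hφ n s (T s) (by omega)) (by
        rw [hφ n (bar s) (T s) (by rw [bar_bar]; omega)]) ha hb
    have h2 := hC2le s
    omega

end Pool.Agent.Y33.Free
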