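import Pool.Agent.Y33.Free.Path

/-! # The limit ray of an infinite path is Morse -/

set_option autoImplicit false

namespace Pool.Agent.Y33.Free

open Pool.Agent.H659R3.MorseLim Filter

variable {G : Type} [Group G] {A : FinGen G}

/-- The gauge of `side_close`. -/
def MS (M : ℕ → ℕ) (m : ℕ) : ℕ := M (3 * m) + (m * (m * (2 * M (3 * m)) + m) + m)

/-- Quasi-geodesics from `x` to a point of a geodesic from `x` to `w`, for a `U`-pair `(x, w)`. -/
theorem side_close {M : ℕ → ℕ} {x w : G} (hU : U A M x w) {l : ℕ} {g : ℕ → G} (hg : Geo A l g)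
    (g0 : g 0 = x) (gl : g l = w) {m L c : ℕ} {q : ℕ → G} (hm : 1 ≤ m) (hq : QG A m L q)
    (h0 : q 0 = x) (hc : c ≤ l) (hL : q L = g c) {t : ℕ} (ht : t ≤ L) :
    ∃ c' ≤ l, A.dist (q t) (g c') ≤ MS M m := by
  obtain ⟨t₂, ht₂, hn⟩ := exists_nearest A L q w
  obtain ⟨p, p1, p2, p3⟩ := exists_geo A (q t₂) w
  have hP := QG.trick hm hq ht₂ (fun i hi => hn i (hi.trans ht₂)) p1 p2 p3
  have hP0 : app q t₂ p 0 = x := by rw [app_le (Nat.zero_le _), h0]
  have hPl : app q t₂ p (t₂ + A.dist (q t₂) w) = w := by rw [app_add p2, p3]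
  rcases le_or_gt t t₂ with h | h
  · obtain ⟨c', hc', h1⟩ := hU (3 * m) (by omega) _ _ l g hP (hg.qg (by omega)) hP0 hPl g0 gl t
      (by omega)
    rw [app_le h] at h1
    exact ⟨c', hc', h1.trans (by unfold MS; omega)⟩
  · obtain ⟨i, hi, h1⟩ := hU (3 * m) (by omega) l g _ _ (hg.qg (by omega)) hP g0 gl hP0 hPl c hc
    refine ⟨c, hc, ?_⟩
    have key : L - t₂ ≤ m * (2 * M (3 * m)) + m := by
      rcases le_or_gt i t₂ with h2 | h2
      · rw [app_le h2] at h1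
        have h3 := (hq i (L - i) (by omega)).2
        have e : i + (L - i) = L := by omega
        rw [e, hL, A.dist_comm] at h3
        have h4 : m * A.dist (g c) (q i) ≤ m * (2 * M (3 * m)) := Nat.mul_le_mul_left _ (by omega)
        omega
      · obtain ⟨j, rfl⟩ := Nat.exists_eq_add_of_le h2.le
        rw [app_add p2] at h1
        have e1 := p1.dist_eq (a := j) (b := A.dist (q t₂) w) (by omega) le_rfl
        have e2 := p1.dist_eq (a := 0) (b := j) (by omega) (by omega)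
        rw [p3] at e1
        rw [p2] at e2
        have e3 := hg.dist_eq (a := c) (b := l) hc le_rfl
        rw [gl] at e3
        have n1 := hn L le_rfl
        rw [hL] at n1
        have t1 := A.dist_triangle (g c) (p j) w
        have t2 := A.dist_triangle (q t₂) (p j) (g c)
        rw [A.dist_comm (p j) (g c)] at t2
        have h3 := (hq t₂ (L - t₂) (by omega)).2
        have e : t₂ + (L - t₂) = L := by omega
        rw [e, hL] at h3
        have h4 : m * A.dist (q t₂) (g c) ≤ m * (2 * M (3 * m)) := Nat.mul_le_mul_left _ (by omega)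
        omega
    have h5 := (hq t (L - t) (by omega)).1
    have e : t + (L - t) = L := by omega
    rw [e, hL] at h5
    have h6 : m * (L - t) ≤ m * (m * (2 * M (3 * m)) + m) := Nat.mul_le_mul_left _ (by omega)
    unfold MS
    omega

/-- Quasi-geodesics with endpoints on a geodesic joining a `U`-pair. -/
theorem pair_close {M : ℕ → ℕ} {x w : G} (hU : U A M x w) {l : ℕ} {g : ℕ → G} (hg : Geo A l g)
    (g0 : g 0 = x) (gl : g l = w) {m L a b : ℕ} {q : ℕ → G} (hm : 1 ≤ m) (hq : QG A m L q)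
    (ha : a ≤ l) (hb : b ≤ l) (h0 : q 0 = g a) (hL : q L = g b) {t : ℕ} (ht : t ≤ L) :
    ∃ c' ≤ l, A.dist (q t) (g c') ≤ MS M (3 * m) := by
  have key : ∀ (q : ℕ → G) (a t₁ t : ℕ), QG A m L q → a ≤ l → q 0 = g a → t₁ ≤ L →
      (∀ i ≤ t₁, A.dist (q t₁) x ≤ A.dist (q i) x) → t ≤ t₁ →
      ∃ c' ≤ l, A.dist (q t) (g c') ≤ MS M (3 * m) := by
    intro q a t₁ t hq ha h0 ht₁ hn ht
    obtain ⟨p, p1, p2, p3⟩ := exists_geo A (q t₁) x
    have hP := QG.trick hm hq ht₁ hn p1 p2 p3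
    obtain ⟨c', hc', h1⟩ := side_close hU hg g0 gl (by omega) hP.rev
      (by simp only [Nat.sub_zero]; rw [app_add p2, p3]) ha
      (by simp only [Nat.sub_self]; rw [app_le (Nat.zero_le _), h0])
      (t := t₁ + A.dist (q t₁) x - t) (by omega)
    have e : t₁ + A.dist (q t₁) x - (t₁ + A.dist (q t₁) x - t) = t := by omega
    simp only [e] at h1
    rw [app_le ht] at h1
    exact ⟨c', hc', h1⟩
  obtain ⟨t₁, ht₁, hn⟩ := exists_nearest A L q x
  rcases le_total t t₁ with h | h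
  · exact key q a t₁ t hq ha h0 ht₁ (fun i hi => hn i (hi.trans ht₁)) h
  · have e1 : L - (L - t₁) = t₁ := by omega
    have e2 : L - (L - t) = t := by omega
    have := key (fun i => q (L - i)) b (L - t₁) (L - t) hq.rev hb (by simpa using hL) (by omega)
      (by
        intro i hi
        simp only [e1]
        exact hn _ (by omega)) (by omega)
    simpa only [e2] using this

/-- Limit rays of geodesics joining uniform `U`-pairs are Morse. -/
theorem limit_DM {M : ℕ → ℕ} {w : ℕ → G} (hU : ∀ᶠ r in (uf : Filter ℕ), U A M 1 (w r))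
    {l : ℕ → ℕ} {g : ℕ → ℕ → G} (hg : ∀ r, Geo A (l r) (g r)) (g0 : ∀ r, g r 0 = 1)
    (gl : ∀ r, g r (l r) = w r) (hl : ∀ T, ∀ᶠ r in (uf : Filter ℕ), T ≤ l r) {γ : ℕ → G}
    (hγ : ∀ T, ∀ᶠ r in (uf : Filter ℕ), ∀ a ≤ T, g r a = γ a) :
    GeoRay A γ ∧ γ 0 = 1 ∧ DM A (fun m => MS M (3 * m)) γ := by
  have key : ∀ T, ∃ r, U A M 1 (w r) ∧ T ≤ l r ∧ ∀ a ≤ T, g r a = γ a := by
    intro T
    obtain ⟨r, h1, h2, h3⟩ := (hU.and ((hl T).and (hγ T))).exists
    exact ⟨r, h1, h2, h3⟩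
  refine ⟨fun T => ?_, ?_, ?_⟩
  · obtain ⟨r, -, h2, h3⟩ := key T
    exact Geo.congr (fun a k hk => hg r a k (by omega)) fun i hi => (h3 i hi).symm
  · obtain ⟨r, -, h2, h3⟩ := key 0
    rw [← h3 0 le_rfl, g0]
  · rintro m hm L q hq ⟨a, ha⟩ ⟨b, hb⟩ t ht
    obtain ⟨r, h1, h2, h3⟩ := key (max a b + (m * L + m) + MS M (3 * m))
    have ha' : q 0 = g r a := by rw [ha, h3 a (by omega)]
    have hb' : q L = g r b := by rw [hb, h3 b (by omega)]
    obtain ⟨c, hc, h4⟩ := pair_close h1 (hg r) (g0 r) (gl r) hm hq (by omega) (by omega) ha' hb' ht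
    refine ⟨c, ?_⟩
    have h5 := (hq 0 t (by omega)).1
    rw [zero_add, ha'] at h5
    have h6 : m * t ≤ m * L := Nat.mul_le_mul_left _ ht
    have t1 := A.dist_triangle (g r a) (q t) (g r c)
    rw [(hg r).dist_eq (by omega) hc] at t1
    rw [h3 c (by omega)] at h4
    exact h4

namespace LData

variable (Λ : LData A)

/-- The recurrence gauge of points within `D` of an `f`-Morse ray. -/
def FF (f : ℕ → ℕ) (D m : ℕ) : ℕ :=
  (3 * f (cc m D) + 2 * cc m D) + 2 * D + Λ.D1 1 + 5 * D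

variable {Λ}

/-- Points close to a Morse ray, which are roughly aligned, are recurrent. -/
theorem near_ray {f : ℕ → ℕ} {γ : ℕ → G} (hg : GeoRay A γ) (hf : DM A f γ) {D : ℕ}
    {u₁ u₂ u₃ : G} {t₁ t₂ t₃ : ℕ} (h1 : A.dist (γ t₁) u₁ ≤ D) (h2 : A.dist (γ t₂) u₂ ≤ D)
    (h3 : A.dist (γ t₃) u₃ ≤ D)
    (hal : A.dist u₁ u₂ + A.dist u₂ u₃ ≤ A.dist u₁ u₃ + 2 * Λ.D1 1) {m : ℕ} (hm : 1 ≤ m) :
    R A m (Λ.FF f D m) u₁ u₂ u₃ := by
  have hR := hf.toRec hg
  -- ordered case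
  have key : ∀ (u₁ u₃ : G) (t₁ t₃ : ℕ), A.dist (γ t₁) u₁ ≤ D → A.dist (γ t₃) u₃ ≤ D →
      A.dist u₁ u₂ + A.dist u₂ u₃ ≤ A.dist u₁ u₃ + 2 * Λ.D1 1 → t₁ ≤ t₃ →
      R A m (Λ.FF f D m) u₁ u₂ u₃ := by
    intro u₁ u₃ t₁ t₃ h1 h3 hal h13
    have e12 := hg.dist_eq t₁ t₂
    have e23 := hg.dist_eq t₂ t₃
    have e13 := hg.dist_eq t₁ t₃
    have a1 := A.dist_triangle u₁ (γ t₁) u₂
    have a2 := A.dist_triangle (γ t₁) (γ t₂) u₂
    have a3 := A.dist_triangle (γ t₁) u₁ (γ t₂)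
    have a4 := A.dist_triangle u₁ u₂ (γ t₂)
    have a5 := A.dist_triangle (γ t₂) u₂ (γ t₃)
    have a6 := A.dist_triangle u₂ u₃ (γ t₃)
    have a7 := A.dist_triangle u₁ (γ t₁) u₃
    have a8 := A.dist_triangle (γ t₁) (γ t₃) u₃
    have a9 := A.dist_triangle u₃ (γ t₃) u₂
    have a10 := A.dist_triangle (γ t₃) (γ t₂) u₂
    rw [A.dist_comm u₁ (γ t₁)] at a1 a7
    rw [A.dist_comm u₂ (γ t₂)] at a4
    rw [A.dist_comm u₃ (γ t₃)] at a6 a9
    rw [A.dist_comm (γ t₃) (γ t₂)] at a10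
    rcases Nat.lt_or_ge t₂ t₁ with hc | hc
    · refine R.of_dist _ ?_
      unfold FF
      omega
    · rcases Nat.lt_or_ge t₃ t₂ with hc' | hc'
      · refine R.symm (R.of_dist _ ?_)
        unfold FF
        omega
      · have h4 := hR t₃ (cc m D) (hm.trans (le_cc _ _)) t₁ t₂ t₃ hc hc' le_rfl
        intro L q hq h0 hL
        obtain ⟨i, hi, h5⟩ := h4.change hm hq (by rw [h0, A.dist_comm]; exact h1)
          (by rw [hL, A.dist_comm]; exact h3)
        refine ⟨i, hi, ?_⟩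
        have := A.dist_triangle (q i) (γ t₂) u₂
        simp only at h5
        unfold FF
        omega
  rcases le_total t₁ t₃ with h | h
  · exact key u₁ u₃ t₁ t₃ h1 h3 hal h
  · refine (key u₃ u₁ t₃ t₁ h3 h1 ?_ h).symm
    rw [A.dist_comm u₃ u₂, A.dist_comm u₂ u₁, A.dist_comm u₃ u₁]
    omega

namespace Blocks

variable (P : Λ.Blocks)

/-- Conclusion: the limit ray is Morse, hence of one of the given gauges, hence all the blocks
are recurrent with a gauge determined by this gauge and a distance. -/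
theorem all_blocks {f : ℕ → ℕ → ℕ} (hf : ∀ γ : MorseRay A, ∃ k, DM A (f k) γ.path) :
    ∃ k D, ∀ i, Λ.RecL (Λ.FF (f k) D) (P.B i) := by
  have hgeo := fun r => exists_geo A 1 (P.x r)
  choose g g1 g2 g3 using hgeo
  have hlen : ∀ r, A.dist 1 (P.x r) = A.len (P.x r) := fun r => A.dist_one_left _
  have hl : ∀ T, ∀ᶠ r in (uf : Filter ℕ), T ≤ A.dist 1 (P.x r) := by
    intro T
    filter_upwards [uf_ge (T + 1)] with r hr
    obtain ⟨r', rfl⟩ : ∃ r', r = r' + 1 := ⟨r - 1, by omega⟩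
    have := P.len_x r'
    rw [hlen]
    omega
  obtain ⟨γ, hγ⟩ := exists_limit A uf g (fun a => a) (by
    intro a
    filter_upwards [hl a] with r hr
    have := (g1 r).dist_eq (a := 0) (b := a) (by omega) hr
    rw [g2, A.dist_one_left] at this
    omega)
  have hU : ∀ᶠ r in (uf : Filter ℕ), U A P.MP 1 (P.x r) := by
    filter_upwards [uf_ge 1] with r hr
    exact P.U_x hr
  obtain ⟨c1, c2, c3⟩ := limit_DM hU g1 g2 g3 hl hγ
  obtain ⟨k, hk⟩ := hf ⟨γ, c2, c1.isGeod, _, c3.isMorse⟩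
  refine ⟨k, P.E2 1, ?_⟩
  -- vertices are close to the ray
  have near : ∀ i b c, P.B i = b ++ c → ∃ t, A.dist (γ t) (P.x i * Λ.π b) ≤ P.E2 1 := by
    intro i b c e
    obtain ⟨r, h1, h2⟩ := ((uf_ge (i + 1)).and (hγ (A.len (P.x i * Λ.π b) + P.E2 1))).exists
    obtain ⟨t, ht, h3⟩ := P.R_vertex (r := r) (m := 1) le_rfl h1 e _ _ ((g1 r).qg le_rfl) (g2 r)
      (g3 r)
    refine ⟨t, ?_⟩
    have e1 := (g1 r).dist_eq (a := 0) (b := t) (by omega) ht
    rw [g2] at e1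
    have t1 := A.dist_triangle 1 (P.x i * Λ.π b) (g r t)
    rw [A.dist_one_left (P.x i * Λ.π b), A.dist_comm (P.x i * Λ.π b) (g r t)] at t1
    rw [← h2 t (by omega)]
    exact h3
  intro i a b c d e m hm
  obtain ⟨t₁, n1⟩ := near i a (b ++ c ++ d) (by rw [e]; simp)
  obtain ⟨t₂, n2⟩ := near i (a ++ b) (c ++ d) (by rw [e]; simp)
  obtain ⟨t₃, n3⟩ := near i (a ++ b ++ c) d (by rw [e])
  have hn : 1 ≤ P.n i := by
    have := (P.req i).1
    omega
  have hR1 := P.good i a b c d e 1 le_rfl hn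
  have hR1' := hR1.mul (P.x i * Λ.π (a ++ b))
  have e1 : P.x i * Λ.π (a ++ b) * (Λ.π b)⁻¹ = P.x i * Λ.π a := by
    rw [π_append]; group
  have e2 : P.x i * Λ.π (a ++ b) * Λ.π c = P.x i * Λ.π (a ++ b ++ c) := by
    rw [π_append _ (a ++ b) c, mul_assoc]
  rw [e1, e2, mul_one] at hR1'
  have hal : A.dist (P.x i * Λ.π a) (P.x i * Λ.π (a ++ b)) +
      A.dist (P.x i * Λ.π (a ++ b)) (P.x i * Λ.π (a ++ b ++ c)) ≤
      A.dist (P.x i * Λ.π a) (P.x i * Λ.π (a ++ b ++ c)) + 2 * Λ.D1 1 := by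
    obtain ⟨p, p1, p2, p3⟩ := exists_geo A (P.x i * Λ.π a) (P.x i * Λ.π (a ++ b ++ c))
    obtain ⟨t, ht, h3⟩ := hR1' _ p (p1.qg le_rfl) p2 p3
    have f1 := p1.dist_eq (a := 0) (b := t) (by omega) ht
    have f2 := p1.dist_eq (a := t) (b := _) ht le_rfl
    rw [p2] at f1
    rw [p3] at f2
    have t1 := A.dist_triangle (P.x i * Λ.π a) (p t) (P.x i * Λ.π (a ++ b))
    have t2 := A.dist_triangle (P.x i * Λ.π (a ++ b)) (p t) (P.x i * Λ.π (a ++ b ++ c))
    rw [A.dist_comm (P.x i * Λ.π (a ++ b)) (p t)] at t2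
    omega
  have h := near_ray (Λ := Λ) c1 hk n1 n2 n3 hal hm
  have h' := h.mul (P.x i * Λ.π (a ++ b))⁻¹
  have e3 : (P.x i * Λ.π (a ++ b))⁻¹ * (P.x i * Λ.π a) = (Λ.π b)⁻¹ := by
    rw [π_append]; group
  have e4 : (P.x i * Λ.π (a ++ b))⁻¹ * (P.x i * Λ.π (a ++ b ++ c)) = Λ.π c := by
    rw [π_append _ (a ++ b) c]; group
  rw [e3, e4, inv_mul_cancel] at h'
  exact h'

end Blocks

end LData

end Pool.Agent.Y33.Free
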