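import Pool.Agent.Y33.Free.Words

/-! # Words in the letters, and the uniform case -/

set_option autoImplicit false

namespace Pool.Agent.Y33.Free

open Pool.Agent.H659R3.MorseLim

variable {G : Type} [Group G] {A : FinGen G}

/-- The inverse list of letters. -/
def linv (l : List (S × ℕ)) : List (S × ℕ) := (l.map fun x => (bar x.1, x.2)).reverse

theorem linv_append_singleton (l : List (S × ℕ)) (y : S × ℕ) :
    linv (l ++ [y]) = (bar y.1, y.2) :: linv l := by
  simp [linv]

/-- Consecutive letters do not cancel. -/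
def Valid (l : List (S × ℕ)) : Prop :=
  ∀ l₁ y x l₂, l = l₁ ++ y :: x :: l₂ → x.1 ≠ bar y.1

theorem Valid.sublist {a b c l : List (S × ℕ)} (h : Valid l) (e : l = a ++ b ++ c) : Valid b := by
  intro l₁ y x l₂ hb
  exact h (a ++ l₁) y x (l₂ ++ c) (by rw [e, hb]; simp)

theorem valid_singleton (x : S × ℕ) : Valid [x] := by
  intro l₁ y x' l₂ h
  have := congrArg List.length h
  simp at this
  omega

namespace LData

variable (Λ : LData A)

/-- The element represented by a list of letters. -/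
def π (l : List (S × ℕ)) : G := (l.map Λ.g).prod

@[simp] theorem π_nil : Λ.π [] = 1 := rfl

@[simp] theorem π_cons (x : S × ℕ) (l : List (S × ℕ)) : Λ.π (x :: l) = Λ.g x * Λ.π l := by
  simp [π]

@[simp] theorem π_append (l l' : List (S × ℕ)) : Λ.π (l ++ l') = Λ.π l * Λ.π l' := by
  simp [π]

theorem π_linv (l : List (S × ℕ)) : Λ.π (linv l) = (Λ.π l)⁻¹ := by
  induction l with
  | nil => simp [linv]
  | cons x l ih =>
    have e : linv (x :: l) = linv l ++ [(bar x.1, x.2)] := by simp [linv]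
    have := Λ.g_bar x.1 x.2
    rw [e, π_append, ih, π_cons, π_cons, π_nil, this, mul_inv_rev, mul_one]

/-- Junction bounds for `m ≤ n`. -/
def Good (n : ℕ) (l : List (S × ℕ)) : Prop :=
  ∀ a b c d, l = a ++ b ++ c ++ d → ∀ m, 1 ≤ m → m ≤ n → R A m (Λ.D1 m) (Λ.π b)⁻¹ 1 (Λ.π c)

/-- Junction bounds for all `m`. -/
def RecL (M : ℕ → ℕ) (l : List (S × ℕ)) : Prop :=
  ∀ a b c d, l = a ++ b ++ c ++ d → ∀ m, 1 ≤ m → R A m (M m) (Λ.π b)⁻¹ 1 (Λ.π c)

/-- The constant of `front_of_R`. -/
def fc (D m : ℕ) : ℕ := Λ.F1 (cc m D) + D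

variable {Λ}

theorem front_of_R {x : S × ℕ} {z : G} {m D : ℕ} (hm : 1 ≤ m)
    (h : R A m D (Λ.g x)⁻¹ 1 z) : Λ.Front m (Λ.fc D m) x (Λ.g x * z) := by
  intro K hK
  have h1 := h.mul (Λ.g x)
  rw [mul_inv_cancel, mul_one] at h1
  exact h1.trans_left hm (Λ.R_ray x.1 x.2 (hm.trans (le_cc _ _)) hK)

/-- Front of a list, from the junction after its first letter. -/
theorem front_cons {x : S × ℕ} {l : List (S × ℕ)} {m D : ℕ} (hm : 1 ≤ m)
    (h : R A m D (Λ.π [x])⁻¹ 1 (Λ.π l)) : Λ.Front m (Λ.fc D m) x (Λ.π (x :: l)) := by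
  rw [π_cons]
  rw [π_cons, π_nil, mul_one] at h
  exact front_of_R hm h

/-- Front of the inverse list, from the junction before its last letter. -/
theorem front_snoc {y : S × ℕ} {l : List (S × ℕ)} {m D : ℕ} (hm : 1 ≤ m)
    (h : R A m D (Λ.π l)⁻¹ 1 (Λ.π [y])) :
    Λ.Front m (Λ.fc D m) (bar y.1, y.2) (Λ.π (l ++ [y]))⁻¹ := by
  have e1 := Λ.g_bar y.1 y.2
  have h1 := h.symm
  rw [π_cons, π_nil, mul_one] at h1
  have e2 : Λ.g y = (Λ.g (bar y.1, y.2))⁻¹ := by rw [e1, inv_inv]
  rw [e2] at h1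
  have h2 := front_of_R hm h1
  have e3 : (Λ.π (l ++ [y]))⁻¹ = Λ.g (bar y.1, y.2) * (Λ.π l)⁻¹ := by
    rw [π_append, π_cons, π_nil, mul_one, mul_inv_rev, e2, inv_inv]
  rw [e3]
  exact h2

/-- The uniform case: if good lists are uniformly recurrent, all lists of large letters are good. -/
theorem uniform {n₀ : ℕ} {M : ℕ → ℕ}
    (h : ∀ l, Valid l → (∀ x ∈ l, n₀ ≤ x.2) → Λ.Good n₀ l → Λ.RecL M l) :
    ∃ N, ∀ l, Valid l → (∀ x ∈ l, N ≤ x.2) → Λ.RecL M l := by
  obtain ⟨N, hN⟩ : ∃ N, n₀ ≤ N ∧ ∀ m ≤ n₀, Λ.K0 (Λ.fc (M (3 * m)) (3 * m)) m ≤ N := by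
    obtain ⟨b, hb⟩ := ((Finset.range (n₀ + 1)).image fun m =>
      Λ.K0 (Λ.fc (M (3 * m)) (3 * m)) m).bddAbove
    refine ⟨max n₀ b, le_max_left _ _, fun m hm => le_trans (hb ?_) (le_max_right _ _)⟩
    simp only [Finset.coe_image, Set.mem_image, Finset.coe_range]
    exact ⟨m, by simpa [Nat.lt_succ_iff] using hm, rfl⟩
  refine ⟨N, ?_⟩
  have key : ∀ k l, l.length ≤ k → Valid l → (∀ x ∈ l, N ≤ x.2) → Λ.Good n₀ l := by
    intro k
    induction k using Nat.strong_induction_on with
    | _ k ih =>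
      intro l hlk hv hs a b c d e m hm hmn
      rcases List.eq_nil_or_concat b with hb | ⟨b', y, hb⟩
      · rw [hb]
        simp only [π_nil, inv_one]
        exact R.left _ _ _ _ _
      rcases c with _ | ⟨x, c'⟩
      · exact R.right _ _ _ _ _
      have hlen := congrArg List.length e
      simp only [List.length_append, List.length_cons, hb, List.concat_eq_append, List.length_nil]
        at hlen
      have hbv : Valid b := hv.sublist (a := a) (c := x :: c' ++ d) (by rw [e]; simp)
      have hcv : Valid (x :: c') := hv.sublist (a := a ++ b) (c := d) (by rw [e])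
      have hbs : ∀ z ∈ b, N ≤ z.2 := fun z hz => hs z (by rw [e]; simp [hz])
      have hcs : ∀ z ∈ x :: c', N ≤ z.2 := fun z hz => hs z (by
        rw [e]; simp only [List.mem_append]; exact Or.inl (Or.inr hz))
      have hbg := ih (b.length) (by rw [hb]; simp; omega) b le_rfl hbv hbs
      have hcg := ih ((x :: c').length) (by simp; omega) _ le_rfl hcv hcs
      have hbr := h b hbv (fun z hz => hN.1.trans (hbs z hz)) hbg
      have hcr := h _ hcv (fun z hz => hN.1.trans (hcs z hz)) hcg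
      rw [List.concat_eq_append] at hb
      have j1 := hbr [] b' [y] [] (by rw [hb]; simp) (3 * m) (by omega)
      have j2 := hcr [] [x] c' [] (by simp) (3 * m) (by omega)
      have f1 := front_snoc (by omega) j1
      have f2 := front_cons (by omega) j2
      rw [← hb] at f1
      have hxy : x.1 ≠ bar y.1 := hv (a ++ b') y x (c' ++ d) (by rw [e, hb]; simp)
      refine main_junction (x := (bar y.1, y.2)) (x' := x) hm hxy.symm f1 f2 ?_ ?_
      · exact (hN.2 m hmn).trans (hbs y (by rw [hb]; simp))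
      · exact (hN.2 m hmn).trans (hcs x (by simp))
  intro l hv hs
  exact h l hv (fun x hx => hN.1.trans (hs x hx)) (key _ l le_rfl hv hs)

/-- The uniform case gives a free subgroup. -/
theorem free_of_uniform {N : ℕ} {M : ℕ → ℕ}
    (h : ∀ l, Valid l → (∀ x ∈ l, N ≤ x.2) → Λ.RecL M l) :
    ∃ f : FreeGroup (Fin 2) →* G, Function.Injective f := by
  set n := N + M 1 + Λ.F1 1 + 1 with hn
  set f : FreeGroup (Fin 2) →* G := FreeGroup.lift fun i => Λ.g ((i, true), n) with hf
  refine ⟨f, ?_⟩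
  rw [injective_iff_map_eq_one]
  intro w hw
  have hform : ∀ L : List (Fin 2 × Bool), f (FreeGroup.mk L) = Λ.π (L.map fun s => (s, n)) := by
    intro L
    rw [hf, FreeGroup.lift_mk, π, List.map_map]
    congr 1
    apply List.map_congr_left
    rintro ⟨i, b⟩ -
    cases b
    · have := Λ.g_bar (i, true) n
      simp only [bar, Bool.not_true] at this
      simp [this]
    · simp
  have hred := FreeGroup.isReduced_toWord (x := w)
  have hw' := hform w.toWord
  rw [FreeGroup.mk_toWord, hw] at hw'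
  rcases hL : w.toWord with _ | ⟨s, L⟩
  · exact FreeGroup.toWord_eq_nil_iff.1 hL
  · exfalso
    have hv : Valid (w.toWord.map fun s => (s, n)) := by
      intro l₁ y x l₂ e
      obtain ⟨L₁, L', e1, e2, e3⟩ := List.map_eq_append_iff.1 e
      obtain ⟨s₁, L₂, e4, e5, e6⟩ := List.map_eq_cons_iff.1 e3
      obtain ⟨s₂, L₃, e7, e8, e9⟩ := List.map_eq_cons_iff.1 e6
      rw [e4, e7] at e1
      have h1 := (List.isChain_iff_forall_rel_of_append_cons_cons.1 hred) e1
      subst e5 e8
      intro h2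
      simp only [bar] at h2
      have h3 := h1 (by rw [h2])
      have h4 := congrArg Prod.snd h2
      simp only at h4
      rw [← h3] at h4
      revert h4
      cases s₁.2 <;> simp
    have hr := h _ hv (by
      intro x hx
      obtain ⟨s, -, rfl⟩ := List.mem_map.1 hx
      simp only; omega)
    rw [hL, List.map_cons] at hr hw'
    have h1 := hr [] [(s, n)] (L.map fun s => (s, n)) [] (by simp) 1 le_rfl
    rw [π_cons] at hw'
    have h2 : Λ.π (L.map fun s => (s, n)) = (Λ.π [(s, n)])⁻¹ := by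
      rw [π_cons, π_nil, mul_one]
      exact (inv_eq_of_mul_eq_one_right hw'.symm).symm
    rw [h2] at h1
    obtain ⟨t, ht, h3⟩ := h1 0 (fun _ => (Λ.π [(s, n)])⁻¹) (by
      intro a k hk
      have : k = 0 := by omega
      subst this
      simp) rfl rfl
    rw [A.dist_comm, A.dist_one_left, A.len_inv, π_cons, π_nil, mul_one] at h3
    have := Λ.len_g s n
    omega

end LData

end Pool.Agent.Y33.Free
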