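import Pool.Agent.Y33.Free.Limit

/-! # Free subgroups of groups with infinite `σ`-compact Morse boundary -/

set_option autoImplicit false

namespace Pool.Agent.Y33.Free

open Pool.Agent.H659R3.MorseLim

variable {G : Type} [Group G] {A : FinGen G}

namespace LData

variable {Λ : LData A}

theorem Good.mono {n n' : ℕ} {l : List (S × ℕ)} (h : Λ.Good n l) (hn : n' ≤ n) : Λ.Good n' l :=
  fun a b c d e m hm hmn => h a b c d e m hm (hmn.trans hn)

theorem RecL.mono {M M' : ℕ → ℕ} {l : List (S × ℕ)} (h : Λ.RecL M l) (hM : ∀ m, M m ≤ M' m) :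
    Λ.RecL M' l :=
  fun a b c d e m hm => (h a b c d e m hm).mono le_rfl (hM m)

variable (Λ)

/-- The bound for the recurrence gauge at level `n`. -/
def Msh (f : ℕ → ℕ → ℕ) (n m : ℕ) : ℕ :=
  ∑ k ∈ Finset.range (n + 1), ∑ D ∈ Finset.range (n + 1), Λ.FF (f k) D m

theorem FF_le_Msh (f : ℕ → ℕ → ℕ) {n k D : ℕ} (hk : k ≤ n) (hD : D ≤ n) (m : ℕ) :
    Λ.FF (f k) D m ≤ Λ.Msh f n m := by
  have h1 := Finset.single_le_sum (f := fun D => Λ.FF (f k) D m) (s := Finset.range (n + 1))
    (fun _ _ => Nat.zero_le _) (a := D) (by simp; omega)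
  have h2 := Finset.single_le_sum (f := fun k => ∑ D ∈ Finset.range (n + 1), Λ.FF (f k) D m)
    (s := Finset.range (n + 1)) (fun _ _ => Nat.zero_le _) (a := k) (by simp; omega)
  exact h1.trans h2

theorem Msh_mono (f : ℕ → ℕ → ℕ) {n n' : ℕ} (h : n ≤ n') (m : ℕ) : Λ.Msh f n m ≤ Λ.Msh f n' m := by
  have hs : Finset.range (n + 1) ⊆ Finset.range (n' + 1) := by
    intro x hx
    simp only [Finset.mem_range] at *
    omega
  unfold Msh
  refine (Finset.sum_le_sum fun k _ => Finset.sum_le_sum_of_subset hs).trans ?_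
  exact Finset.sum_le_sum_of_subset hs

/-- Bad blocks of level `n`. -/
def Bad (f : ℕ → ℕ → ℕ) (n : ℕ) (l : List (S × ℕ)) : Prop :=
  Valid l ∧ (∀ x ∈ l, n ≤ x.2) ∧ Λ.Good n l ∧ ¬ Λ.RecL (Λ.Msh f n) l

variable {Λ}

theorem Bad.mono {f : ℕ → ℕ → ℕ} {n n' : ℕ} {l : List (S × ℕ)} (h : Λ.Bad f n l) (hn : n' ≤ n) :
    Λ.Bad f n' l :=
  ⟨h.1, fun x hx => hn.trans (h.2.1 x hx), h.2.2.1.mono hn, fun h' => h.2.2.2
    (h'.mono (Λ.Msh_mono f hn))⟩

theorem Bad.ne_nil {f : ℕ → ℕ → ℕ} {n : ℕ} {l : List (S × ℕ)} (h : Λ.Bad f n l) : l ≠ [] := by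
  rintro rfl
  apply h.2.2.2
  intro a b c d e m hm
  have hb : b = [] := by
    have := congrArg List.length e
    simp only [List.length_nil, List.length_append] at this
    exact List.length_eq_zero_iff.1 (by omega)
  rw [hb]
  simp only [π_nil, inv_one]
  exact R.left _ _ _ _ _

/-- A single letter is good. -/
theorem good_singleton (n : ℕ) (x : S × ℕ) : Λ.Good n [x] := by
  intro a b c d e m hm hmn
  have := congrArg List.length e
  simp only [List.length_cons, List.length_nil, List.length_append] at this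
  rcases b with _ | ⟨y, b⟩
  · simp only [π_nil, inv_one]
    exact R.left _ _ _ _ _
  · simp only [List.length_cons] at this
    have hc : c = [] := List.length_eq_zero_iff.1 (by omega)
    rw [hc]
    exact R.right _ _ _ _ _

/-- The types of the first and the last letters of bad blocks can be fixed. -/
theorem exists_types {f : ℕ → ℕ → ℕ} (h : ∀ n, ∃ l, Λ.Bad f n l) :
    ∃ s s' : S, ∀ n, ∃ (l tl it : List (S × ℕ)) (hd la : S × ℕ), Λ.Bad f n l ∧ l = hd :: tl ∧
      l = it ++ [la] ∧ hd.1 = s ∧ la.1 = s' := by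
  classical
  by_contra hcon
  push Not at hcon
  choose n hn using hcon
  set N := ∑ s : S, ∑ s' : S, n s s' with hN
  have hle : ∀ s s', n s s' ≤ N := by
    intro s s'
    have h1 := Finset.single_le_sum (f := fun s' => n s s') (s := Finset.univ)
      (fun _ _ => Nat.zero_le _) (Finset.mem_univ s')
    have h2 := Finset.single_le_sum (f := fun s => ∑ s' : S, n s s') (s := Finset.univ)
      (fun _ _ => Nat.zero_le _) (Finset.mem_univ s)
    exact h1.trans h2
  obtain ⟨l, hl⟩ := h N
  have hne := hl.ne_nil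
  obtain ⟨hd, tl, h1⟩ := List.exists_cons_of_ne_nil hne
  obtain ⟨it, la, h2⟩ : ∃ it la, l = it ++ [la] := by
    rcases List.eq_nil_or_concat l with h | ⟨it, la, h⟩
    · exact absurd h hne
    · exact ⟨it, la, by rw [h, List.concat_eq_append]⟩
  exact hn hd.1 la.1 l tl it hd la (hl.mono (hle _ _)) h1 h2 rfl rfl

theorem exists_connector : ∀ s s' : S, ∃ t : S, t ≠ bar s' ∧ s ≠ bar t := by
  decide

/-- Block with all the data. -/
structure Blk (Λ : LData A) (f : ℕ → ℕ → ℕ) (s s' t : S) (j n : ℕ) where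
  l : List (S × ℕ)
  tl : List (S × ℕ)
  it : List (S × ℕ)
  hd : S × ℕ
  la : S × ℕ
  e1 : l = hd :: tl
  e2 : l = it ++ [la]
  size : ∀ y ∈ l, n ≤ y.2
  good : Λ.Good n l
  types : hd.1 = (if Even j then s else t) ∧ la.1 = (if Even j then s' else t)
  bad : Even j → Λ.Bad f n l

theorem exists_blk {f : ℕ → ℕ → ℕ} {s s' t : S}
    (h : ∀ n, ∃ (l tl it : List (S × ℕ)) (hd la : S × ℕ), Λ.Bad f n l ∧ l = hd :: tl ∧
      l = it ++ [la] ∧ hd.1 = s ∧ la.1 = s') (j n : ℕ) : Nonempty (Blk Λ f s s' t j n) := by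
  by_cases hj : Even j
  · obtain ⟨l, tl, it, hd, la, h1, h2, h3, h4, h5⟩ := h n
    exact ⟨⟨l, tl, it, hd, la, h2, h3, h1.2.1, h1.2.2.1, by simp [hj, h4, h5], fun _ => h1⟩⟩
  · exact ⟨⟨[(t, n)], [], [], (t, n), (t, n), rfl, rfl, by simp, good_singleton n _,
      by simp [hj], fun h => absurd h hj⟩⟩

/-- If there are bad blocks of all levels then there is an infinite path of blocks, with
infinitely many bad ones. -/
theorem exists_blocks {f : ℕ → ℕ → ℕ} (h : ∀ n, ∃ l, Λ.Bad f n l) :
    ∃ P : Λ.Blocks, ∀ j, Even j → Λ.Bad f (P.n j) (P.B j) := by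
  classical
  obtain ⟨s, s', hty⟩ := exists_types h
  obtain ⟨t, ht1, ht2⟩ := exists_connector s s'
  have blk := fun j n => Classical.choice (exists_blk (t := t) hty j n)
  choose ν hν using Λ.exists_req
  -- the states: element and size
  let lev : ℕ → G × ℕ → ℕ := fun j z => z.2 + ν j (A.len z.1)
  let st : ℕ → G × ℕ := fun j => Nat.rec (1, 0)
    (fun j z => (z.1 * Λ.π (blk j (lev j z)).l, lev j z)) j
  have hst : ∀ j, st (j + 1) = ((st j).1 * Λ.π (blk j (lev j (st j))).l, lev j (st j)) :=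
    fun j => rfl
  let b := fun j => blk j (lev j (st j))
  refine ⟨⟨fun j => (b j).l, fun j => lev j (st j), fun j => (st j).1, fun j => (b j).hd,
    fun j => (b j).tl, fun j => (b j).it, fun j => (b j).la, fun j => (b j).e1,
    fun j => (b j).e2, fun j => (b j).size, fun j => (b j).good, ?_, rfl, fun j => ?_, fun j => ?_,
    fun j => ?_⟩, fun j hj => (b j).bad hj⟩
  · intro j
    rw [(b (j + 1)).types.1, (b j).types.2]
    by_cases hj : Even j
    · rw [if_pos hj, if_neg (by rw [Nat.even_add_one]; simpa using hj)]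
      exact ht1
    · rw [if_neg hj, if_pos (by rw [Nat.even_add_one]; exact hj)]
      exact ht2
  · rw [hst]
  · change lev j (st j) ≤ (st (j + 1)).2 + _
    rw [hst]
    exact Nat.le_add_right _ _
  · exact hν j _ _ (Nat.le_add_left _ _)

end LData

/-- Countably many gauges suffice for all Morse rays, and there are infinitely many points:
then there is a free subgroup. -/
theorem free_of_gauges (A : FinGen G) (h : Infinite (MorseBoundary A)) (f : ℕ → ℕ → ℕ)
    (hf : ∀ γ : MorseRay A, ∃ k, DM A (f k) γ.path) :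
    ∃ φ : FreeGroup (Fin 2) →* G, Function.Injective φ := by
  obtain ⟨Λ⟩ := exists_LData A h
  by_cases hbad : ∀ n, ∃ l, Λ.Bad f n l
  · exfalso
    obtain ⟨P, hP⟩ := LData.exists_blocks hbad
    obtain ⟨k, D, hkD⟩ := P.all_blocks hf
    have hn : 2 * (k + D) ≤ P.n (2 * (k + D)) := P.le_n _
    have h1 := hP (2 * (k + D)) (even_two_mul _)
    apply h1.2.2.2
    exact (hkD (2 * (k + D))).mono (Λ.FF_le_Msh f (by omega) (by omega))
  · push Not at hbad
    obtain ⟨n₀, hn₀⟩ := hbad
    obtain ⟨N, hN⟩ := LData.uniform (Λ := Λ) (n₀ := n₀) (M := Λ.Msh f n₀) (by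
      intro l h1 h2 h3
      by_contra h4
      exact hn₀ l ⟨h1, h2, h3, h4⟩)
    exact LData.free_of_uniform hN

/-- A finitely generated group with infinite `σ`-compact Morse boundary contains a free group
of rank two. -/
theorem free_of_sigmaCompact (A : FinGen G) [Infinite (MorseBoundary A)]
    [SigmaCompactSpace (MorseBoundary A)] :
    ∃ φ : FreeGroup (Fin 2) →* G, Function.Injective φ := by
  obtain ⟨f, hf⟩ := countable_gauges A
  exact free_of_gauges A inferInstance f hf

end Pool.Agent.Y33.Free
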