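import Pool.Agent.Y33.Free.Gauges

/-! # The group fixes no point of a Morse boundary with at least three points -/

set_option autoImplicit false

namespace Pool.Agent.Y33.Free

open Pool.Agent.H659R3.MorseLim

variable {G : Type} [Group G] {A : FinGen G}

theorem ball_finite (A : FinGen G) (n : ℕ) : {g : G | A.len g ≤ n}.Finite := by
  induction n with
  | zero =>
    refine (Set.finite_singleton (1 : G)).subset fun g hg => ?_
    exact A.eq_one_of_len (Nat.le_zero.1 hg)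
  | succ n ih =>
    have hS : (A.S ∪ A.S⁻¹ ∪ {1}).Finite :=
      (A.finite.union A.finite.inv).union (Set.finite_singleton 1)
    refine (hS.image2 (fun x y => x * y) ih).subset fun g hg => ?_
    obtain ⟨l, h1, h2, h3⟩ := A.len_spec g
    have hg' : A.len g ≤ n + 1 := hg
    rcases l with _ | ⟨x, l⟩
    · refine ⟨1, by simp, 1, by simp, ?_⟩
      simpa using h3
    · refine ⟨x, ?_, l.prod, ?_, by simpa using h3⟩
      · rcases h2 x (by simp) with h | h
        · exact Or.inl (Or.inl h)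
        · exact Or.inl (Or.inr h)
      · have := A.len_le (l := l) (fun y hy => h2 y (List.mem_cons_of_mem _ hy))
        rw [List.length_cons] at h1
        change A.len l.prod ≤ n
        omega

theorem exists_far {γ γ' : ℕ → G} (h : ¬ FinHaus A γ γ') (D : ℕ) :
    ∃ T, D < A.dist (γ T) (γ' T) := by
  by_contra hcon
  push Not at hcon
  exact h (finHaus_of_pointwise hcon)

theorem exists_prod {F : ℕ → ℕ} {γ γ' : ℕ → G} (hg : GeoRay A γ) (hg' : GeoRay A γ')
    (hR : Rec A F γ) (hR' : Rec A F γ') (h : ¬ FinHaus A γ γ') :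
    ∃ C, ∀ a b, a + b ≤ A.dist (γ a) (γ' b) + C := by
  obtain ⟨T, hT⟩ := exists_far h (fD F (A.dist (γ 0) (γ' 0)))
  exact ⟨_, fun a b => prod_bdd hT (hg a) (hg' b) (hR a) (hR' b) le_rfl rfl rfl le_rfl le_rfl⟩

theorem FinHaus.mul {γ γ' : ℕ → G} (h : FinHaus A γ γ') (k : G) :
    FinHaus A (fun n => k * γ n) (fun n => k * γ' n) := by
  obtain ⟨D, h1, h2⟩ := h
  refine ⟨D, fun m => ?_, fun n => ?_⟩
  · obtain ⟨n, hn⟩ := h1 m
    exact ⟨n, by rwa [A.dist_mul_left]⟩
  · obtain ⟨m, hm⟩ := h2 n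
    exact ⟨m, by rwa [A.dist_mul_left]⟩

/-- If `h γ ∼ γ` with `h = η m` then `h γ` passes near `1`. -/
theorem pass_near {F : ℕ → ℕ} {C : ℕ} {γ η : ℕ → G} (hg : GeoRay A γ) (hη : GeoRay A η)
    (hR : Rec A F γ) (hR' : Rec A F η) (h0 : γ 0 = 1) (h0' : η 0 = 1)
    (hC : ∀ a b, a + b ≤ A.dist (η a) (γ b) + C) (m : ℕ)
    (hm : FinHaus A (fun n => η m * γ n) γ) :
    ∃ t, A.dist (η m * γ t) 1 ≤ D0 F 0 C 3 := by
  obtain ⟨K, -, hK⟩ := hm
  set D := D0 F 0 C 3 with hD
  obtain ⟨T', hT'⟩ := hK (D + K + 1)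
  set T := D + K + 1 with hT
  obtain ⟨t, ht, hn⟩ := exists_nearest A T' (fun n => η m * γ n) (γ T)
  obtain ⟨g, g1, g2, g3⟩ := exists_geo A (η m * γ t) (γ T)
  have hq := QG.trick (m := 1) le_rfl (((hg.mul (η m)) T').qg le_rfl) ht
    (fun i hi => hn i (hi.trans ht)) g1 g2 g3
  have hK' : A.dist (η m * γ t) (γ T) ≤ K := (hn T' le_rfl).trans hT'
  have hJ := junction (A := A) (e := 0) (y := 1) (hη m) (hg T) (hR' m) (hR T) (by rw [h0']; simp)
    (by rw [h0]; simp) (fun a _ b _ => hC a b) (m := 3) (by omega)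
  obtain ⟨i, hi, h2⟩ := hJ _ _ hq (by rw [app_le (Nat.zero_le t), h0]; simp) (by rw [app_add g2, g3])
  rcases le_or_gt i t with hit | hit
  · rw [app_le hit] at h2
    exact ⟨i, h2⟩
  · exfalso
    obtain ⟨j, rfl⟩ := Nat.exists_eq_add_of_le hit.le
    rw [app_add g2] at h2
    have g4 := g1 j (A.dist (η m * γ t) (γ T) - j) (by omega)
    have : j + (A.dist (η m * γ t) (γ T) - j) = A.dist (η m * γ t) (γ T) := by omega
    rw [this, g3] at g4
    have t1 := A.dist_triangle (1 : G) (g j) (γ T)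
    rw [A.dist_comm 1 (g j), ← h0, hg.dist_eq, h0] at t1
    omega

/-- The group does not fix a Morse boundary point if there are two others. -/
theorem no_fix {F : ℕ → ℕ} {γ η η' : ℕ → G} (hg : GeoRay A γ) (hη : GeoRay A η)
    (hη' : GeoRay A η') (hR : Rec A F γ) (hRη : Rec A F η) (hRη' : Rec A F η') (h0 : γ 0 = 1)
    (h1 : η 0 = 1) (h2 : η' 0 = 1) (n1 : ¬ FinHaus A η γ) (n2 : ¬ FinHaus A η' γ)
    (n3 : ¬ FinHaus A η η') : ∃ k : G, ¬ FinHaus A (fun n => k * γ n) γ := by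
  classical
  by_contra hcon
  push Not at hcon
  obtain ⟨C1, hC1⟩ := exists_prod hη hg hRη hR n1
  obtain ⟨C2, hC2⟩ := exists_prod hη' hg hRη' hR n2
  obtain ⟨C3, hC3⟩ := exists_prod hη hη' hRη hRη' n3
  have p1 := fun m => pass_near hg hη hR hRη h0 h1 hC1 m (hcon (η m))
  have p2 := fun m => pass_near hg hη' hR hRη' h0 h2 hC2 m (hcon (η' m))
  obtain ⟨D, hD1, hD2⟩ : ∃ D, D0 F 0 C1 3 ≤ D ∧ D0 F 0 C2 3 ≤ D :=
    ⟨_, le_max_left _ _, le_max_right _ _⟩
  -- the elements `k m`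
  have key : ∀ m, ∀ s ≥ m + D, A.dist (γ s) ((η m)⁻¹ * η' m * γ s) ≤ asy F (4 * D) := by
    intro m s hs
    obtain ⟨t, ht⟩ := p1 m
    obtain ⟨t', ht'⟩ := p2 m
    have a1 : A.dist (η m) (η m * γ t) = t := by
      have e : η m = η m * γ 0 := by rw [h0, mul_one]
      conv_lhs => rw [e]
      have e' : η m * γ 0 * γ t = η m * γ t := by rw [h0, mul_one]
      rw [e', A.dist_mul_left, hg.dist_eq]; omega
    have a2 : A.dist (η' m) (η' m * γ t') = t' := by
      have e : η' m = η' m * γ 0 := by rw [h0, mul_one]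
      conv_lhs => rw [e]
      have e' : η' m * γ 0 * γ t' = η' m * γ t' := by rw [h0, mul_one]
      rw [e', A.dist_mul_left, hg.dist_eq]; omega
    have a3 : A.dist (η m) 1 = m := by rw [← h1, hη.dist_eq]; omega
    have a4 : A.dist (η' m) 1 = m := by rw [← h2, hη'.dist_eq]; omega
    have b1 := A.dist_triangle (η m) 1 (η m * γ t)
    have b2 := A.dist_triangle (η m) (η m * γ t) 1
    have b3 := A.dist_triangle (η' m) 1 (η' m * γ t')
    have b4 := A.dist_triangle (η' m) (η' m * γ t') 1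
    rw [A.dist_comm 1] at b1 b3
    have b5 := A.dist_triangle (η m * γ t) 1 (η' m * γ t')
    rw [A.dist_comm 1 (η' m * γ t')] at b5
    have b6 : A.dist (γ t) ((η m)⁻¹ * η' m * γ t') ≤ 2 * D := by
      rw [← A.dist_mul_left (η m)]
      have e : η m * ((η m)⁻¹ * η' m * γ t') = η' m * γ t' := by group
      rw [e]; omega
    have b7 := A.dist_triangle (γ t') (γ t) ((η m)⁻¹ * η' m * γ t')
    rw [hg.dist_eq t' t] at b7
    have hs' : t' ≤ s := by omega
    obtain ⟨i, rfl⟩ := Nat.exists_eq_add_of_le hs'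
    obtain ⟨K, -, hK⟩ := hcon ((η m)⁻¹ * η' m)
    refine asymp_close (A := A) (hg.tail t') ((hg.mul ((η m)⁻¹ * η' m)).tail t') (hR.tail t')
      (e := 4 * D) (K := K + t') (by simp only [add_zero]; omega) ?_ i
    intro T
    obtain ⟨n, hn⟩ := hK (t' + T)
    rw [A.dist_comm] at hn
    simp only at hn
    rcases le_total t' n with h | h
    · obtain ⟨j, rfl⟩ := Nat.exists_eq_add_of_le h
      exact ⟨j, hn.trans (Nat.le_add_right _ _)⟩
    · refine ⟨0, ?_⟩
      have c1 := A.dist_triangle (γ (t' + T)) ((η m)⁻¹ * η' m * γ n) ((η m)⁻¹ * η' m * γ (t' + 0))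
      rw [A.dist_mul_left, hg.dist_eq] at c1
      omega
  -- pigeonhole
  set B := (ball_finite A (asy F (4 * D))).toFinset with hB
  set s := (C3 + 1) * B.card + D with hs
  have hmaps : ∀ j ∈ Finset.range (B.card + 1),
      (γ s)⁻¹ * ((η ((C3 + 1) * j))⁻¹ * η' ((C3 + 1) * j)) * γ s ∈ B := by
    intro j hj
    rw [Finset.mem_range] at hj
    rw [hB, Set.Finite.mem_toFinset]
    have : (C3 + 1) * j ≤ (C3 + 1) * B.card := Nat.mul_le_mul_left _ (by omega)
    have := key ((C3 + 1) * j) s (by omega)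
    rw [FinGen.dist] at this
    change A.len _ ≤ _
    rwa [mul_assoc]
  obtain ⟨i, hi, j, hj, hij, heq⟩ := Finset.exists_ne_map_eq_of_card_lt_of_maps_to
    (by rw [Finset.card_range]; omega) hmaps
  have heq' : (η ((C3 + 1) * i))⁻¹ * η' ((C3 + 1) * i) =
      (η ((C3 + 1) * j))⁻¹ * η' ((C3 + 1) * j) := by
    have := mul_right_cancel heq
    exact mul_left_cancel this
  have hlen : ∀ m, 2 * m ≤ A.len ((η m)⁻¹ * η' m) + C3 ∧ A.len ((η m)⁻¹ * η' m) ≤ 2 * m := by
    intro m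
    have c1 := hC3 m m
    have c2 := A.dist_triangle (η m) 1 (η' m)
    have a3 : A.dist (η m) 1 = m := by rw [← h1, hη.dist_eq]; omega
    have a4 : A.dist 1 (η' m) = m := by rw [← h2, hη'.dist_eq]; omega
    change _ ≤ A.dist (η m) (η' m) + _ ∧ A.dist (η m) (η' m) ≤ _
    omega
  have l1 := hlen ((C3 + 1) * i)
  have l2 := hlen ((C3 + 1) * j)
  rw [heq'] at l1
  rcases lt_or_gt_of_ne hij with h | h
  · have : (C3 + 1) * (i + 1) ≤ (C3 + 1) * j := Nat.mul_le_mul_left _ h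
    rw [Nat.mul_add] at this
    omega
  · have : (C3 + 1) * (j + 1) ≤ (C3 + 1) * i := Nat.mul_le_mul_left _ h
    rw [Nat.mul_add] at this
    omega

end Pool.Agent.Y33.Free
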