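import Pool.Agent.Y33.Free.Lists

/-! # An infinite concatenation of good blocks of quickly growing size -/

set_option autoImplicit false

namespace Pool.Agent.Y33.Free

open Pool.Agent.H659R3.MorseLim

variable {G : Type} [Group G] {A : FinGen G}

namespace LData

variable (Λ : LData A)

/-- Front constant for good blocks. -/
def κ1 (m : ℕ) : ℕ := Λ.fc (Λ.D1 m) m

/-- Front constant for the infinite path. -/
def κ2 (m : ℕ) : ℕ := Λ.D1 m + Λ.κ1 m + Λ.κ1 (cc m (Λ.D1 m))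

/-- Front constant on the left. -/
def κ3 (m Δ : ℕ) : ℕ := Λ.κ1 (cc (3 * m) Δ) + Δ + Λ.κ2 (3 * m)

/-- The requirement on the size `n` of the block number `j` starting at distance `Δ` from `1`. -/
def Req (j Δ n : ℕ) : Prop :=
  j + Λ.κ1 1 + Δ + 1 ≤ n ∧ ∀ m ≤ 3 ^ (j + 1), 3 * m ≤ n ∧ cc m (Λ.D1 m) ≤ n ∧
    Λ.K0 (Λ.κ2 (3 * m)) m ≤ n ∧ cc (3 * m) Δ ≤ n ∧ Λ.K0 (Λ.κ3 m Δ) m ≤ n

theorem exists_req (j Δ : ℕ) : ∃ ν, ∀ n ≥ ν, Λ.Req j Δ n := by
  obtain ⟨b, hb⟩ := ((Finset.range (3 ^ (j + 1) + 1)).image fun m =>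
      3 * m + cc m (Λ.D1 m) + Λ.K0 (Λ.κ2 (3 * m)) m + cc (3 * m) Δ +
        Λ.K0 (Λ.κ3 m Δ) m).bddAbove
  refine ⟨j + Λ.κ1 1 + Δ + 1 + b, fun n hn => ⟨by omega, fun m hm => ?_⟩⟩
  have := hb (a := 3 * m + cc m (Λ.D1 m) + Λ.K0 (Λ.κ2 (3 * m)) m + cc (3 * m) Δ +
        Λ.K0 (Λ.κ3 m Δ) m) (by
    simp only [Finset.coe_image, Set.mem_image, Finset.coe_range]
    exact ⟨m, by simpa [Nat.lt_succ_iff] using hm, rfl⟩)
  omega

/-- The data of an infinite path of blocks. -/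
structure Blocks where
  B : ℕ → List (S × ℕ)
  n : ℕ → ℕ
  x : ℕ → G
  hd : ℕ → S × ℕ
  tl : ℕ → List (S × ℕ)
  it : ℕ → List (S × ℕ)
  la : ℕ → S × ℕ
  B_hd : ∀ j, B j = hd j :: tl j
  B_la : ∀ j, B j = it j ++ [la j]
  size : ∀ j, ∀ y ∈ B j, n j ≤ y.2
  good : ∀ j, Λ.Good (n j) (B j)
  join : ∀ j, (hd (j + 1)).1 ≠ bar (la j).1
  x_zero : x 0 = 1
  x_succ : ∀ j, x (j + 1) = x j * Λ.π (B j)
  mono : ∀ j, n j ≤ n (j + 1)
  req : ∀ j, Λ.Req j (A.len (x j)) (n j)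

variable {Λ}

namespace Blocks

variable (P : Λ.Blocks)

theorem κ1_le (m : ℕ) : Λ.κ1 m ≤ Λ.κ2 m := by unfold κ2; omega

theorem front_hd (j : ℕ) {m : ℕ} (hm : 1 ≤ m) (hmn : m ≤ P.n j) :
    Λ.Front m (Λ.κ1 m) (P.hd j) (Λ.π (P.B j)) := by
  have h := P.good j [] [P.hd j] (P.tl j) [] (by rw [P.B_hd]; simp) m hm hmn
  rw [P.B_hd]
  exact front_cons hm h

theorem front_la (j : ℕ) {m : ℕ} (hm : 1 ≤ m) (hmn : m ≤ P.n j) :
    Λ.Front m (Λ.κ1 m) (bar (P.la j).1, (P.la j).2) (Λ.π (P.B j))⁻¹ := by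
  have h := P.good j [] (P.it j) [P.la j] [] (by rw [P.B_la]; simp) m hm hmn
  rw [P.B_la]
  exact front_snoc hm h

theorem size_hd (j : ℕ) : P.n j ≤ (P.hd j).2 := P.size j _ (by rw [P.B_hd]; simp)

theorem size_la (j : ℕ) : P.n j ≤ (P.la j).2 := P.size j _ (by rw [P.B_la]; simp)

/-- The forward estimate. -/
theorem forward : ∀ (k j m : ℕ), 1 ≤ m → m ≤ 3 ^ j →
    Λ.Front m (Λ.κ2 m) (P.hd j) ((P.x j)⁻¹ * P.x (j + (k + 1))) ∧
    (R A m (Λ.D1 m) 1 (Λ.π (P.B j)) ((P.x j)⁻¹ * P.x (j + (k + 1)))) := by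
  intro k
  induction k with
  | zero =>
    intro j m hm hmj
    have hr := (P.req j).2 m (hmj.trans (Nat.pow_le_pow_right (by omega) (by omega)))
    have e : (P.x j)⁻¹ * P.x (j + (0 + 1)) = Λ.π (P.B j) := by
      rw [zero_add, P.x_succ]; group
    rw [e]
    exact ⟨(P.front_hd j hm (by omega)).mono le_rfl (κ1_le m), R.right _ _ _ _ _⟩
  | succ k ih =>
    intro j m hm hmj
    have hmj1 : m ≤ 3 ^ (j + 1) := hmj.trans (Nat.pow_le_pow_right (by omega) (by omega))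
    have hmj2 : 3 * m ≤ 3 ^ (j + 1) := by rw [pow_succ]; omega
    have hr := (P.req j).2 m hmj1
    have hr' := (P.req (j + 1)).2 m (hmj1.trans (Nat.pow_le_pow_right (by omega) (by omega)))
    obtain ⟨ih1, -⟩ := ih (j + 1) (3 * m) (by omega) hmj2
    have f1 := (P.front_la j (m := 3 * m) (by omega) (by omega)).mono le_rfl (κ1_le (3 * m))
    have h1 := main_junction hm (P.join j).symm f1 ih1 (hr.2.2.1.trans (P.size_la j))
      (hr'.2.2.1.trans (P.size_hd (j + 1)))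
    have h2 := h1.mul (Λ.π (P.B j))
    rw [mul_inv_cancel, mul_one] at h2
    have e : Λ.π (P.B j) * ((P.x (j + 1))⁻¹ * P.x (j + 1 + (k + 1))) =
        (P.x j)⁻¹ * P.x (j + (k + 1 + 1)) := by
      have e1 : j + 1 + (k + 1) = j + (k + 1 + 1) := by ring
      rw [e1, P.x_succ j]; group
    rw [e] at h2
    refine ⟨?_, h2⟩
    intro K hK
    have f2 := P.front_hd j (m := cc m (Λ.D1 m)) (hm.trans (le_cc _ _)) (by omega) K hK
    exact (h2.trans_left hm f2).mono le_rfl (by unfold κ2; omega)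

/-- The estimate at a junction of blocks, seen from `1`. -/
theorem junc (i k m : ℕ) (hm : 1 ≤ m) (hmi : m ≤ 3 ^ i) :
    R A m (Λ.D1 m) 1 (P.x (i + 1)) (P.x (i + 1 + (k + 1))) := by
  have hmj1 : m ≤ 3 ^ (i + 1) := hmi.trans (Nat.pow_le_pow_right (by omega) (by omega))
  have hmj2 : 3 * m ≤ 3 ^ (i + 1) := by rw [pow_succ]; omega
  have hr := (P.req i).2 m hmj1
  have f2 := (P.forward k (i + 1) (3 * m) (by omega) hmj2).1
  set Δ := A.len (P.x i) with hΔ
  have f1 := P.front_la i (m := cc (3 * m) Δ) (le_trans (by omega) (le_cc _ _)) (by omega)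
  have f1' : Λ.Front (3 * m) (Λ.κ3 m Δ) (bar (P.la i).1, (P.la i).2) (P.x (i + 1))⁻¹ := by
    intro K hK
    refine ((f1 K hK).change_right (m := 3 * m) (e := Δ) (by omega) ?_).mono le_rfl
      (by unfold κ3; omega)
    rw [P.x_succ, FinGen.dist, hΔ]
    have : ((P.x i * Λ.π (P.B i))⁻¹)⁻¹ * (Λ.π (P.B i))⁻¹ = P.x i := by group
    rw [this]
  have f2' := f2.mono (le_refl _) (κ' := Λ.κ3 m Δ) (by unfold κ3; omega)
  have h1 := main_junction hm (P.join i).symm f1' f2' (hr.2.2.2.2.trans (P.size_la i))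
    (hr.2.2.2.2.trans ((P.mono i).trans (P.size_hd (i + 1))))
  have h2 := h1.mul (P.x (i + 1))
  rw [mul_inv_cancel, mul_one] at h2
  have e : P.x (i + 1) * ((P.x (i + 1))⁻¹ * P.x (i + 1 + (k + 1))) = P.x (i + 1 + (k + 1)) := by
    group
  rwa [e] at h2

/-- The gauge at the junctions. -/
noncomputable def E1 (m : ℕ) : ℕ := Λ.D1 m + ∑ i ∈ Finset.range (m + 1), A.len (P.x i)

theorem R_x {i r m : ℕ} (hm : 1 ≤ m) (hir : i ≤ r) : R A m (P.E1 m) 1 (P.x i) (P.x r) := by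
  rcases Nat.eq_or_lt_of_le hir with rfl | hlt
  · exact R.right _ _ _ _ _
  rcases Nat.lt_or_ge m i with h | h
  · obtain ⟨i', rfl⟩ : ∃ i', i = i' + 1 := ⟨i - 1, by omega⟩
    obtain ⟨k, rfl⟩ : ∃ k, r = i' + 1 + (k + 1) := ⟨r - (i' + 2), by omega⟩
    have h1 : m ≤ 3 ^ i' :=
      (Nat.lt_pow_self (by omega : 1 < 3)).le.trans (Nat.pow_le_pow_right (by omega) (by omega))
    exact (P.junc i' k m hm h1).mono le_rfl (by unfold E1; omega)
  · refine R.of_dist _ ?_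
    rw [A.dist_one_left]
    have := Finset.single_le_sum (f := fun i => A.len (P.x i)) (s := Finset.range (m + 1))
      (fun _ _ => Nat.zero_le _) (a := i) (by simp; omega)
    unfold E1
    omega

/-- Total size of a block. -/
noncomputable def Sz (Λ : LData A) (l : List (S × ℕ)) : ℕ := (l.map fun y => A.len (Λ.g y)).sum

theorem len_π_le (l : List (S × ℕ)) : A.len (Λ.π l) ≤ Sz Λ l := by
  induction l with
  | nil => simp [Sz]
  | cons x l ih =>
    rw [π_cons]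
    have := A.len_mul_le (Λ.g x) (Λ.π l)
    simp only [Sz, List.map_cons, List.sum_cons] at *
    omega

/-- The gauge inside the blocks. -/
noncomputable def E0 (m : ℕ) : ℕ := Λ.D1 m + ∑ i ∈ Finset.range (m + 1), Sz Λ (P.B i)

theorem le_n (i : ℕ) : i ≤ P.n i := by
  have := (P.req i).1
  omega

theorem R_in {i m : ℕ} (hm : 1 ≤ m) {b c : List (S × ℕ)} (e : P.B i = b ++ c) :
    R A m (P.E0 m) (P.x i) (P.x i * Λ.π b) (P.x (i + 1)) := by
  rcases le_or_gt m (P.n i) with h | h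
  · have h1 := P.good i [] b c [] (by rw [e]; simp) m hm h
    have h2 := h1.mul (P.x i * Λ.π b)
    have e1 : P.x i * Λ.π b * (Λ.π b)⁻¹ = P.x i := by group
    have e2 : P.x i * Λ.π b * Λ.π c = P.x (i + 1) := by rw [P.x_succ, e, π_append, mul_assoc]
    rw [e1, e2, mul_one] at h2
    exact h2.mono le_rfl (by unfold E0; omega)
  · refine R.of_dist _ ?_
    have h0 : A.dist (P.x i) (P.x i * Λ.π b) = A.len (Λ.π b) := by
      rw [FinGen.dist]; congr 1; group
    rw [h0]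
    have h1 := len_π_le (Λ := Λ) b
    have h2 : Sz Λ b ≤ Sz Λ (P.B i) := by
      rw [e]; simp [Sz]
    have h3 := Finset.single_le_sum (f := fun i => Sz Λ (P.B i)) (s := Finset.range (m + 1))
      (fun _ _ => Nat.zero_le _) (a := i) (by have := P.le_n i; simp; omega)
    unfold E0
    omega

/-- The gauge at all vertices. -/
noncomputable def E2 (m : ℕ) : ℕ := P.E0 (cc m (P.E1 m)) + P.E1 m

theorem R_vertex {i r m : ℕ} (hm : 1 ≤ m) (hir : i < r) {b c : List (S × ℕ)}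
    (e : P.B i = b ++ c) : R A m (P.E2 m) 1 (P.x i * Λ.π b) (P.x r) := by
  intro L q hq h0 hL
  obtain ⟨s, hs, h1⟩ := P.R_x hm hir.le L q hq h0 hL
  obtain ⟨t, ht, h2⟩ := P.R_x hm (show i + 1 ≤ r from hir) L q hq h0 hL
  exact (P.R_in (hm.trans (le_cc m (P.E1 m))) e).sub' hm hq hs ht h1 h2

/-- The concatenation of the first blocks. -/
def W : ℕ → List (S × ℕ)
  | 0 => []
  | r + 1 => W r ++ P.B r

theorem x_eq (r : ℕ) : P.x r = Λ.π (P.W r) := by
  induction r with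
  | zero => simp [W, P.x_zero]
  | succ r ih => rw [P.x_succ, ih, W, π_append]

theorem take_W (r : ℕ) : ∀ s ≤ (P.W r).length, (P.W r).take s = P.W r ∨
    ∃ i < r, ∃ b c, P.B i = b ++ c ∧ (P.W r).take s = P.W i ++ b := by
  induction r with
  | zero => intro s _; left; simp [W]
  | succ r ih =>
    intro s hs
    rcases le_or_gt s (P.W r).length with h | h
    · right
      have e : (P.W (r + 1)).take s = (P.W r).take s := by
        rw [W, List.take_append_of_le_length h]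
      rw [e]
      rcases ih s h with h1 | ⟨i, hi, b, c, h2, h3⟩
      · exact ⟨r, by omega, [], P.B r, by simp, by rw [h1]; simp⟩
      · exact ⟨i, by omega, b, c, h2, h3⟩
    · right
      refine ⟨r, by omega, (P.B r).take (s - (P.W r).length), (P.B r).drop (s - (P.W r).length),
        by rw [List.take_append_drop], ?_⟩
      rw [W, List.take_append, List.take_of_length_le h.le]

theorem W_pos {r : ℕ} (hr : 1 ≤ r) : 0 < (P.W r).length := by
  obtain ⟨r, rfl⟩ : ∃ r', r = r' + 1 := ⟨r - 1, by omega⟩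
  rw [W, List.length_append, P.B_hd]
  simp

/-- The `U`-gauge of the infinite path. -/
noncomputable def MP (m : ℕ) : ℕ := Λ.MU (cc m (P.E2 m)) + P.E2 m

theorem U_x {r : ℕ} (hr : 1 ≤ r) : U A P.MP 1 (P.x r) := by
  have h := U.chain (A := A) (M := Λ.MU) (E := P.E2) (n := (P.W r).length) (P.W_pos hr)
    (v := fun s => Λ.π ((P.W r).take s)) ?_ ?_
  · simp only [List.take_zero, π_nil, List.take_length] at h
    rw [← P.x_eq] at h
    exact h
  · intro s hs
    have e : Λ.π ((P.W r).take (s + 1)) = Λ.π ((P.W r).take s) * Λ.g ((P.W r)[s]) := by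
      rw [List.take_succ_eq_append_getElem hs, π_append, π_cons, π_nil, mul_one]
    have := (Λ.U_letter ((P.W r)[s])).mul (Λ.π ((P.W r).take s))
    rw [mul_one] at this
    rw [e]
    exact this
  · intro m hm s hs
    simp only [List.take_zero, π_nil, List.take_length]
    rw [← P.x_eq]
    rcases P.take_W r s hs with h1 | ⟨i, hi, b, c, h2, h3⟩
    · rw [h1, ← P.x_eq]
      exact R.right _ _ _ _ _
    · rw [h3, π_append, ← P.x_eq]
      exact P.R_vertex hm hi h2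

theorem len_x (r : ℕ) : r ≤ A.len (P.x (r + 1)) := by
  have hr := (P.req r).1
  have f := P.front_la r (m := 1) le_rfl (by omega) (P.n r) ((P.size_la r).trans (Λ.φ_ge _))
  obtain ⟨g, g1, g2, g3⟩ := exists_geo A 1 (Λ.π (P.B r))⁻¹
  obtain ⟨t, ht, h1⟩ := f _ g (g1.qg le_rfl) g2 g3
  change A.dist (g t) (Λ.γ (bar (P.la r).1) (P.n r)) ≤ _ at h1
  have e1 := g1.dist_eq (a := 0) (b := t) (by omega) ht
  rw [g2] at e1
  have e2 := (Λ.geo (bar (P.la r).1)).dist_eq 0 (P.n r)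
  rw [Λ.zero] at e2
  have t1 := A.dist_triangle 1 (g t) (Λ.γ (bar (P.la r).1) (P.n r))
  rw [A.dist_one_left (Λ.π (P.B r))⁻¹, A.len_inv] at ht
  have h2 : A.len (Λ.π (P.B r)) ≤ A.len (P.x r) + A.len (P.x (r + 1)) := by
    have e3 : Λ.π (P.B r) = (P.x r)⁻¹ * P.x (r + 1) := by rw [P.x_succ]; group
    rw [e3]
    have := A.len_mul_le (P.x r)⁻¹ (P.x (r + 1))
    rwa [A.len_inv] at this
  omega

end Blocks

end LData

end Pool.Agent.Y33.Free
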