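import Pool.Agent.Y33.Free.Basic

/-! # Rays with the recurrence property, Morse rays -/

set_option autoImplicit false

namespace Pool.Agent.Y33.Free

open Pool.Agent.H659R3.MorseLim

variable {G : Type} [Group G]

/-- A geodesic ray. -/
def GeoRay (A : FinGen G) (γ : ℕ → G) : Prop := ∀ l, Geo A l γ

/-- Quasi-geodesics with endpoints on `γ` pass near all intermediate points (on `0, ..., l`). -/
def RecOn (A : FinGen G) (F : ℕ → ℕ) (l : ℕ) (γ : ℕ → G) : Prop :=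
  ∀ m, 1 ≤ m → ∀ a b c, a ≤ b → b ≤ c → c ≤ l → R A m (F m) (γ a) (γ b) (γ c)

/-- Quasi-geodesics with endpoints on `γ` pass near all intermediate points. -/
def Rec (A : FinGen G) (F : ℕ → ℕ) (γ : ℕ → G) : Prop := ∀ l, RecOn A F l γ

/-- Discrete version of the Morse property. -/
def DM (A : FinGen G) (f : ℕ → ℕ) (γ : ℕ → G) : Prop :=
  ∀ m, 1 ≤ m → ∀ L q, QG A m L q → (∃ a, q 0 = γ a) → (∃ b, q L = γ b) →
    ∀ t ≤ L, ∃ n, A.dist (q t) (γ n) ≤ f m

variable {A : FinGen G}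

theorem GeoRay.nat {γ : ℕ → G} (h : GeoRay A γ) (a k : ℕ) : A.dist (γ a) (γ (a + k)) = k :=
  h (a + k) a k le_rfl

theorem GeoRay.tail {γ : ℕ → G} (h : GeoRay A γ) (s : ℕ) : GeoRay A (fun i => γ (s + i)) :=
  fun l => (h (s + l)).sub le_rfl

theorem GeoRay.mul {γ : ℕ → G} (h : GeoRay A γ) (x : G) : GeoRay A (fun i => x * γ i) :=
  fun l => (h l).mul x

theorem GeoRay.of_isGeod {γ : ℕ → G} (h : IsGeod A Set.univ γ) : GeoRay A γ := by
  intro l a k _
  have := h.nat (Set.mem_univ a) (Set.mem_univ (a + k)) (by omega)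
  omega

theorem GeoRay.isGeod {γ : ℕ → G} (h : GeoRay A γ) : IsGeod A Set.univ γ := by
  refine isGeod_of_nat fun m _ n _ hmn => ?_
  obtain ⟨k, rfl⟩ := Nat.exists_eq_add_of_le hmn
  rw [h.nat m k]; omega

theorem Geo.dist_eq {l : ℕ} {γ : ℕ → G} (h : Geo A l γ) {a b : ℕ} (ha : a ≤ l) (hb : b ≤ l) :
    A.dist (γ a) (γ b) = (a - b) + (b - a) := by
  rcases le_total a b with hab | hab
  · obtain ⟨k, rfl⟩ := Nat.exists_eq_add_of_le hab
    rw [h a k hb]; omega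
  · obtain ⟨k, rfl⟩ := Nat.exists_eq_add_of_le hab
    rw [A.dist_comm, h b k ha]; omega

theorem GeoRay.dist_eq {γ : ℕ → G} (h : GeoRay A γ) (a b : ℕ) :
    A.dist (γ a) (γ b) = (a - b) + (b - a) :=
  (h (max a b)).dist_eq (le_max_left _ _) (le_max_right _ _)

theorem RecOn.mono {F F' : ℕ → ℕ} {l l' : ℕ} {γ : ℕ → G} (h : RecOn A F l γ)
    (hF : ∀ m, F m ≤ F' m) (hl : l' ≤ l) : RecOn A F' l' γ :=
  fun m hm a b c h1 h2 h3 => (h m hm a b c h1 h2 (h3.trans hl)).mono le_rfl (hF m)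

theorem RecOn.mul {F : ℕ → ℕ} {l : ℕ} {γ : ℕ → G} (h : RecOn A F l γ) (x : G) :
    RecOn A F l (fun i => x * γ i) :=
  fun m hm a b c h1 h2 h3 => (h m hm a b c h1 h2 h3).mul x

theorem RecOn.sub {F : ℕ → ℕ} {l l' s : ℕ} {γ : ℕ → G} (h : RecOn A F l γ) (hl : s + l' ≤ l) :
    RecOn A F l' (fun i => γ (s + i)) :=
  fun m hm a b c _ _ _ => h m hm (s + a) (s + b) (s + c) (by omega) (by omega) (by omega)

theorem RecOn.rev {F : ℕ → ℕ} {l : ℕ} {γ : ℕ → G} (h : RecOn A F l γ) :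
    RecOn A F l (fun i => γ (l - i)) :=
  fun m hm a b c _ _ _ => (h m hm (l - c) (l - b) (l - a) (by omega) (by omega) (by omega)).symm

theorem RecOn.congr {F : ℕ → ℕ} {l : ℕ} {γ γ' : ℕ → G} (h : RecOn A F l γ)
    (e : ∀ i ≤ l, γ' i = γ i) : RecOn A F l γ' := by
  intro m hm a b c h1 h2 h3
  rw [e a (by omega), e b (by omega), e c h3]
  exact h m hm a b c h1 h2 h3

theorem Rec.tail {F : ℕ → ℕ} {γ : ℕ → G} (h : Rec A F γ) (s : ℕ) : Rec A F (fun i => γ (s + i)) :=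
  fun l => (h (s + l)).sub le_rfl

theorem Rec.mul {F : ℕ → ℕ} {γ : ℕ → G} (h : Rec A F γ) (x : G) : Rec A F (fun i => x * γ i) :=
  fun l => (h l).mul x

theorem Rec.mono {F F' : ℕ → ℕ} {γ : ℕ → G} (h : Rec A F γ)
    (hF : ∀ m, F m ≤ F' m) : Rec A F' γ := fun l => (h l).mono hF le_rfl

/-- A Morse geodesic ray has the recurrence property. -/
theorem DM.toRec {f : ℕ → ℕ} {γ : ℕ → G} (h : DM A f γ) (hg : GeoRay A γ) :
    Rec A (fun m => 3 * f m + 2 * m) γ := by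
  intro l m hm a b c hab hbc _ L q hq h0 hL
  have hd := h m hm L q hq ⟨a, h0⟩ ⟨c, hL⟩
  have b1 : ∀ s, ∃ n, (s ≤ L → A.dist (q s) (γ n) ≤ f m) ∧ (s = 0 → n = a) ∧
      (s = L → s ≠ 0 → n = c) := by
    intro s
    by_cases hs0 : s = 0
    · refine ⟨a, fun _ => ?_, fun _ => rfl, fun _ h' => absurd hs0 h'⟩
      rw [hs0, h0]; simp
    · by_cases hsL : s = L
      · refine ⟨c, fun _ => ?_, fun h' => absurd h' hs0, fun _ _ => rfl⟩
        rw [hsL, hL]; simp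
      · by_cases hs : s ≤ L
        · obtain ⟨n, hn⟩ := hd s hs
          exact ⟨n, fun _ => hn, fun h' => absurd h' hs0, fun h' => absurd h' hsL⟩
        · exact ⟨0, fun h' => absurd h' hs, fun h' => absurd h' hs0, fun h' => absurd h' hsL⟩
  choose n n1 n2 n3 using b1
  rcases Nat.eq_zero_or_pos L with hL0 | hL0
  · subst hL0
    have e : γ a = γ c := by rw [← h0, ← hL]
    have := hg.dist_eq a c
    rw [e, A.dist_self] at this
    have hb : b = a := by omega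
    refine ⟨0, le_rfl, ?_⟩
    rw [h0, hb]; simp
  · obtain ⟨s, hs, c1, c2⟩ := exists_step L n b (by rw [n2 0 rfl]; exact hab)
      (by rw [n3 L rfl (by omega)]; exact hbc) hL0
    refine ⟨s, hs.le, ?_⟩
    have d1 := n1 s hs.le
    have d2 := n1 (s + 1) hs
    have d3 := (hq s 1 hs).1
    have t1 := A.dist_triangle (γ (n s)) (q s) (γ (n (s + 1)))
    have t2 := A.dist_triangle (q s) (q (s + 1)) (γ (n (s + 1)))
    have t3 := A.dist_triangle (q s) (γ (n s)) (γ b)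
    rw [A.dist_comm (γ (n s)) (q s)] at t1
    rw [hg.dist_eq] at t1 t3
    change _ ≤ 3 * f m + 2 * m
    omega

/-- The gauge of unit steps. -/
def M0 (m : ℕ) : ℕ := m * (m * 1 + m) + m

theorem M0_mono {m m' : ℕ} (h : m ≤ m') : M0 m ≤ M0 m' := by
  unfold M0
  gcongr

/-- The `U`-gauge of segments with recurrence gauge `F`. -/
def gU (F : ℕ → ℕ) (m : ℕ) : ℕ := M0 (cc m (F m)) + F m

theorem RecOn.toU {F : ℕ → ℕ} {l : ℕ} {γ : ℕ → G} (h : RecOn A F l γ) (hg : Geo A l γ)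
    {a c : ℕ} (hac : a ≤ c) (hc : c ≤ l) : U A (gU F) (γ a) (γ c) := by
  rcases Nat.eq_or_lt_of_le hac with rfl | hlt
  · refine (U.of_dist (e := 0) (by simp)).mono fun m => ?_
    unfold gU
    have : M0 m ≤ M0 (cc m (F m)) := M0_mono (le_cc _ _)
    refine le_trans ?_ (this.trans (Nat.le_add_right _ _))
    unfold M0
    gcongr
    omega
  · obtain ⟨k, rfl⟩ := Nat.exists_eq_add_of_le hac
    have := U.chain (A := A) (M := M0) (E := F) (n := k) (by omega) (v := fun i => γ (a + i)) ?_ ?_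
    · exact this
    · intro s hs
      refine U.of_dist (e := 1) ?_
      have := hg (a + s) 1 (by omega)
      rw [← add_assoc]
      exact this.le
    · intro m hm s hs
      exact h m hm a (a + s) (a + k) (by omega) (by omega) hc

/-- `RecOn` implies closeness of quasi-geodesics. -/
theorem RecOn.close {F : ℕ → ℕ} {l : ℕ} {γ : ℕ → G} (h : RecOn A F l γ) (hg : Geo A l γ)
    {a c : ℕ} (hac : a ≤ c) (hc : c ≤ l) {m L : ℕ} (hm : 1 ≤ m) {q : ℕ → G} (hq : QG A m L q)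
    (h0 : q 0 = γ a) (hL : q L = γ c) {t : ℕ} (ht : t ≤ L) :
    ∃ b, a ≤ b ∧ b ≤ c ∧ A.dist (q t) (γ b) ≤ gU F m := by
  obtain ⟨k, rfl⟩ := Nat.exists_eq_add_of_le hac
  obtain ⟨t', ht', h1⟩ := (h.toU hg hac hc) m hm L q k (fun i => γ (a + i)) hq
    ((hg.sub hc).qg hm) h0 hL (by simp) rfl t ht
  exact ⟨a + t', by omega, by omega, h1⟩

theorem Rec.toDM {F : ℕ → ℕ} {γ : ℕ → G} (h : Rec A F γ) (hg : GeoRay A γ) : DM A (gU F) γ := by
  rintro m hm L q hq ⟨a, ha⟩ ⟨c, hc⟩ t ht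
  rcases le_total a c with hac | hac
  · obtain ⟨b, -, -, hb⟩ := (h c).close (hg c) hac le_rfl hm hq ha hc ht
    exact ⟨b, hb⟩
  · obtain ⟨b, -, -, hb⟩ := (h a).close (hg a) hac le_rfl hm hq.rev (by simpa using hc)
      (by simpa using ha) (t := L - t) (by omega)
    refine ⟨b, ?_⟩
    have e : L - (L - t) = t := by omega
    rwa [e] at hb

/-- The discrete gauge of a real gauge. -/
noncomputable def dg (N : Gauge) : ℕ → ℕ := fun m => ⌈N m (2 * m)⌉₊

theorem QG.toReal {m L : ℕ} (hm : 1 ≤ m) {q : ℕ → G} (hq : QG A m L q) :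
    IsQuasiGeod A m (2 * m) L (fun s => q ⌊s⌋₊) := by
  have hm' : (1 : ℝ) ≤ m := by exact_mod_cast hm
  have key : ∀ s t : ℝ, 0 ≤ s → s ≤ t → t ≤ L →
      (t - s) / m - 2 * m ≤ (A.dist (q ⌊s⌋₊) (q ⌊t⌋₊) : ℝ) ∧
      (A.dist (q ⌊s⌋₊) (q ⌊t⌋₊) : ℝ) ≤ m * (t - s) + 2 * m := by
    intro s t hs hst htn
    have f1 : ⌊s⌋₊ ≤ ⌊t⌋₊ := Nat.floor_mono hst
    have f2 : ⌊t⌋₊ ≤ L := Nat.floor_le_of_le htn
    obtain ⟨k, hk⟩ := Nat.exists_eq_add_of_le f1
    obtain ⟨u1, u2⟩ := hq ⌊s⌋₊ k (by omega)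
    rw [← hk] at u1 u2
    have s1 := Nat.floor_le hs
    have s2 := Nat.lt_floor_add_one s
    have t1 := Nat.floor_le (hs.trans hst)
    have t2 := Nat.lt_floor_add_one t
    have k1 : (k : ℝ) = ⌊t⌋₊ - ⌊s⌋₊ := by rw [hk]; push_cast; ring
    have k2 : (k : ℝ) ≤ t - s + 1 := by linarith
    have k3 : t - s ≤ k + 1 := by linarith
    have u1' : (A.dist (q ⌊s⌋₊) (q ⌊t⌋₊) : ℝ) ≤ m * k + m := by exact_mod_cast u1
    have u2' : (k : ℝ) ≤ m * (A.dist (q ⌊s⌋₊) (q ⌊t⌋₊) : ℝ) + m := by exact_mod_cast u2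
    constructor
    · rw [sub_le_iff_le_add, div_le_iff₀ (by linarith)]
      nlinarith
    · nlinarith
  intro s hs t ht
  rcases le_total s t with hst | hst
  · rw [abs_sub_comm, abs_of_nonneg (by linarith)]
    exact key s t hs.1 hst ht.2
  · rw [abs_of_nonneg (by linarith), A.dist_comm]
    exact key t s ht.1 hst hs.2

theorem DM.of_isMorse {N : Gauge} {γ : ℕ → G} (h : IsMorse A N Set.univ γ) : DM A (dg N) γ := by
  rintro m hm L q hq ⟨a, ha⟩ ⟨b, hb⟩ t ht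
  have hm' : (1 : ℝ) ≤ m := by exact_mod_cast hm
  obtain ⟨n, -, hn⟩ := h m (2 * m) L hm' (by linarith) (Nat.cast_nonneg _) _ (hq.toReal hm)
    ⟨a, trivial, by simpa using ha⟩ ⟨b, trivial, by simpa using hb⟩ t
    ⟨Nat.cast_nonneg _, by exact_mod_cast ht⟩
  refine ⟨n, ?_⟩
  simp only [Nat.floor_natCast] at hn
  unfold dg
  exact_mod_cast hn.trans (Nat.le_ceil _)

/-- The real gauge of a discrete gauge. -/
noncomputable def rg (f : ℕ → ℕ) : Gauge :=
  fun lam eps => f (⌈lam⌉₊ + ⌈eps⌉₊ + ⌈lam * eps⌉₊ + 1) + (lam + eps)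

theorem DM.isMorse {f : ℕ → ℕ} {γ : ℕ → G} (h : DM A f γ) : IsMorse A (rg f) Set.univ γ := by
  rintro lam eps L hlam heps hL q hq ⟨a, -, ha⟩ ⟨b, -, hb⟩ t ht
  set m := ⌈lam⌉₊ + ⌈eps⌉₊ + ⌈lam * eps⌉₊ + 1 with hmdef
  have m1 : lam ≤ ⌈lam⌉₊ := Nat.le_ceil _
  have m2 : eps ≤ ⌈eps⌉₊ := Nat.le_ceil _
  have m3 : lam * eps ≤ ⌈lam * eps⌉₊ := Nat.le_ceil _
  have hm : (m : ℝ) = ⌈lam⌉₊ + ⌈eps⌉₊ + ⌈lam * eps⌉₊ + 1 := by rw [hmdef]; push_cast; ring
  have hm1 : 1 ≤ m := by omega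
  have c1 : ∀ i : ℕ, min (i : ℝ) L ∈ Set.Icc 0 L := fun i =>
    ⟨le_min (Nat.cast_nonneg i) hL, min_le_right _ _⟩
  have hle : L ≤ ⌈L⌉₊ := Nat.le_ceil _
  have hlt : (⌈L⌉₊ : ℝ) < L + 1 := Nat.ceil_lt_add_one hL
  have hq' : QG A m ⌈L⌉₊ (fun i => q (min (i : ℝ) L)) := by
    intro i k hik
    obtain ⟨q1, q2⟩ := hq _ (c1 i) _ (c1 (i + k))
    have hik' : ((i + k : ℕ) : ℝ) ≤ ⌈L⌉₊ := by exact_mod_cast hik
    push_cast at hik' q1 q2 ⊢
    have e1 : min ((i : ℝ) + k) L - min (i : ℝ) L ≤ k ∧ 0 ≤ min ((i : ℝ) + k) L - min (i : ℝ) L ∧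
        (k : ℝ) - 1 ≤ min ((i : ℝ) + k) L - min (i : ℝ) L := by
      have k0 : (0 : ℝ) ≤ k := Nat.cast_nonneg k
      rcases le_total ((i : ℝ) + k) L with h1 | h1
      · rw [min_eq_left h1, min_eq_left (by linarith)]
        refine ⟨by linarith, by linarith, by linarith⟩
      · rw [min_eq_right h1]
        rcases le_total (i : ℝ) L with h2 | h2
        · rw [min_eq_left h2]
          refine ⟨by linarith, by linarith, by linarith⟩
        · rw [min_eq_right h2]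
          refine ⟨by linarith, by linarith, by linarith⟩
    rw [abs_sub_comm, abs_of_nonneg e1.2.1] at q1 q2
    set d := A.dist (q (min (i : ℝ) L)) (q (min ((i : ℝ) + k) L)) with hd
    set w := min ((i : ℝ) + k) L - min (i : ℝ) L with hw
    have d0 : (0 : ℝ) ≤ d := Nat.cast_nonneg d
    have k0 : (0 : ℝ) ≤ k := Nat.cast_nonneg k
    constructor
    · have : (d : ℝ) ≤ m * k + m := by nlinarith [e1.1]
      exact_mod_cast this
    · have q3 : w ≤ lam * (d + eps) := by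
        have : w / lam ≤ d + eps := by linarith
        rwa [div_le_iff₀ (by linarith), mul_comm] at this
      have : (k : ℝ) ≤ m * d + m := by nlinarith [e1.2.2]
      exact_mod_cast this
  obtain ⟨n, hn⟩ := h m hm1 _ _ hq' ⟨a, by simpa [hL] using ha⟩
    ⟨b, by simpa [min_eq_right hle] using hb⟩ ⌊t⌋₊ (by
      exact Nat.floor_le_of_le (ht.2.trans hle))
  refine ⟨n, trivial, ?_⟩
  have t1 := Nat.floor_le ht.1
  have t2 := Nat.lt_floor_add_one t
  have e : min (⌊t⌋₊ : ℝ) L = ⌊t⌋₊ := min_eq_left (t1.trans ht.2)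
  simp only [e] at hn
  have q1 := (hq t ht ⌊t⌋₊ ⟨Nat.cast_nonneg _, t1.trans ht.2⟩).2
  rw [abs_of_nonneg (by linarith)] at q1
  have tr := A.dist_triangle (q t) (q ⌊t⌋₊) (γ n)
  have tr' : (A.dist (q t) (γ n) : ℝ) ≤ A.dist (q t) (q ⌊t⌋₊) + A.dist (q ⌊t⌋₊) (γ n) := by
    exact_mod_cast tr
  have hn' : (A.dist (q ⌊t⌋₊) (γ n) : ℝ) ≤ f m := by exact_mod_cast hn
  have : rg f lam eps = f m + (lam + eps) := rfl
  rw [this]
  nlinarith

/-- Change of the path in the recurrence property. -/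
theorem RecOn.change {F : ℕ → ℕ} {l D : ℕ} {γ γ' : ℕ → G} (h : RecOn A F l γ)
    (hd : ∀ i ≤ l, A.dist (γ i) (γ' i) ≤ D) :
    RecOn A (fun m => F (cc m D) + D + D) l γ' := by
  intro m hm a b c hab hbc hc L q hq h0 hL
  have h1 := h (cc m D) (hm.trans (le_cc m D)) a b c hab hbc hc
  obtain ⟨t, ht, h2⟩ := h1.change hm hq (by rw [h0, A.dist_comm]; exact hd a (by omega))
    (by rw [hL, A.dist_comm]; exact hd c hc)
  exact ⟨t, ht, (A.dist_triangle _ _ _).trans (add_le_add h2 (hd b (by omega)))⟩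

/-- Constant of closeness of asymptotic rays. -/
def asy (F : ℕ → ℕ) (e : ℕ) : ℕ := 2 * (F (cc 3 e) + e) + e

/-- Asymptotic geodesic rays, one of which is recurrent, are uniformly close. -/
theorem asymp_close {F : ℕ → ℕ} {γ γ' : ℕ → G} (hg : GeoRay A γ) (hg' : GeoRay A γ')
    (hR : Rec A F γ) {e K : ℕ} (he : A.dist (γ 0) (γ' 0) ≤ e)
    (hK : ∀ T, ∃ T', A.dist (γ T) (γ' T') ≤ K) (s : ℕ) :
    A.dist (γ s) (γ' s) ≤ asy F e := by
  set m := cc 3 e with hm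
  have hm3 : 3 ≤ m := le_cc 3 e
  set T := s + K + F m + e + K + 1 with hT
  obtain ⟨T', hT'⟩ := hK T
  obtain ⟨t, ht, hn⟩ := exists_nearest A T' γ' (γ T)
  obtain ⟨g, g1, g2, g3⟩ := exists_geo A (γ' t) (γ T)
  have hq := QG.trick (m := 1) le_rfl ((hg' T').qg le_rfl) ht
    (fun i hi => hn i (hi.trans ht)) g1 g2 g3
  have hK' : A.dist (γ' t) (γ T) ≤ K := by
    have := hn T' le_rfl
    rw [A.dist_comm (γ' T')] at this
    exact this.trans hT'
  have h1 := hR T m (by omega) 0 s T (by omega) (by omega) le_rfl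
  obtain ⟨i, hi, h2⟩ := h1.change (m := 3) (e := e) (by omega) hq (by
    rw [app_le (Nat.zero_le t), A.dist_comm]; exact he) (by
      rw [app_add g2, g3]; simp)
  -- the point is on `γ'`
  rcases le_or_gt i t with hit | hit
  · rw [app_le hit] at h2
    have t1 := A.dist_triangle (γ s) (γ' i) (γ' s)
    rw [A.dist_comm (γ s) (γ' i), hg'.dist_eq] at t1
    have t2 := A.dist_triangle (γ 0) (γ' 0) (γ' i)
    have t3 := A.dist_triangle (γ 0) (γ' i) (γ s)
    have t4 := A.dist_triangle (γ' 0) (γ 0) (γ s)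
    have t5 := A.dist_triangle (γ' 0) (γ s) (γ' i)
    rw [A.dist_comm (γ' 0) (γ 0)] at t4
    rw [A.dist_comm (γ s) (γ' i)] at t5
    rw [hg.dist_eq] at t3 t4
    rw [hg'.dist_eq] at t2 t5
    unfold asy
    rw [← hm]
    omega
  · obtain ⟨j, rfl⟩ := Nat.exists_eq_add_of_le hit.le
    rw [app_add g2] at h2
    have g4 := g1 j (A.dist (γ' t) (γ T) - j) (by omega)
    have : j + (A.dist (γ' t) (γ T) - j) = A.dist (γ' t) (γ T) := by omega
    rw [this, g3] at g4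
    have t1 := A.dist_triangle (γ s) (g j) (γ T)
    rw [A.dist_comm (γ s) (g j), hg.dist_eq] at t1
    omega

/-- Constants of `fellow`. -/
def fK (F : ℕ → ℕ) (e : ℕ) : ℕ := 2 * (gU F 3 + gU F (cc 3 e) + e) + e

def fD (F : ℕ → ℕ) (e : ℕ) : ℕ :=
  2 * (F (cc 1 (gU F 3 + (gU F (cc 3 e) + e) + e)) + (gU F 3 + (gU F (cc 3 e) + e) + e)) + e

/-- If the Gromov product is large, the segments fellow travel. -/
theorem fellow {F : ℕ → ℕ} {l₁ l₂ e : ℕ} {σ τ : ℕ → G} (h1 : Geo A l₁ σ) (h2 : Geo A l₂ τ)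
    (r1 : RecOn A F l₁ σ) (r2 : RecOn A F l₂ τ) (he : A.dist (σ 0) (τ 0) ≤ e)
    {a b : ℕ} (ha : a ≤ l₁) (hb : b ≤ l₂) {c : ℕ}
    (hc : 2 * c + fK F e + A.dist (σ a) (τ b) ≤ a + b) :
    A.dist (σ c) (τ c) ≤ fD F e := by
  obtain ⟨g, g1, g2, g3⟩ := exists_geo A (σ a) (τ b)
  set l := A.dist (σ a) (τ b) with hl
  obtain ⟨t, ht, hn⟩ := exists_nearest A l g (σ 0)
  obtain ⟨p, p1, p2, p3⟩ := exists_geo A (g t) (σ 0)
  -- first side
  have hq1 := QG.trick (m := 1) le_rfl (g1.qg le_rfl) ht (fun i hi => hn i (hi.trans ht)) p1 p2 p3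
  have hu1 := (r1.toU h1 (Nat.zero_le a) ha).symm
  obtain ⟨i1, hi1, hi1'⟩ := hu1 3 (by omega) _ _ a (fun i => σ (a - i)) hq1
    ((h1.sub (a := 0) (l' := a) (by omega)).rev.congr (by intro i _; simp) |>.qg (by omega))
    (by rw [app_le (Nat.zero_le t), g2]) (by rw [app_add p2, p3]) (by simp) (by simp) t (by omega)
  rw [app_le le_rfl] at hi1'
  -- second side
  have hq2 := QG.trick (m := 1) (q := fun i => g (l - i)) (t := l - t) (g := p) (y := σ 0) le_rfl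
    ((g1.qg le_rfl).rev) (by omega) (by
      intro i hi
      have : l - (l - t) = t := by omega
      simp only [this]
      exact hn _ (by omega)) p1 (by
      have : l - (l - t) = t := by omega
      simp only [this]
      exact p2) p3
  have hu2 := (r2.toU h2 (Nat.zero_le b) hb).symm
  have hrev : QG A 3 b (fun i => τ (b - i)) :=
    ((h2.sub (a := 0) (l' := b) (by omega)).rev.congr (by intro i _; simp) |>.qg (by omega))
  obtain ⟨i2, -, hi2, hi2'⟩ := hu2.change (m := 3) (e := e) (by omega) hq2 hrev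
    (Nat.zero_le _) le_rfl (Nat.zero_le _) (le_refl b)
    (by rw [app_le (Nat.zero_le _)]; simp [g3])
    (by rw [app_add (by
      have : l - (l - t) = t := by omega
      simp only [this]
      exact p2), p3]; exact he) (by simp) (by simp) (i := l - t) (by omega)
      (le_trans (Nat.le_add_right _ _) (le_max_right _ _))
  rw [app_le le_rfl] at hi2'
  have e1 : l - (l - t) = t := by omega
  simp only [e1] at hi2'
  have hi2 : i2 ≤ b := by simpa using hi2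
  -- the two points
  obtain ⟨a', ha', ha2⟩ : ∃ a', a' ≤ a ∧ a - i1 = a' := ⟨a - i1, by omega, rfl⟩
  obtain ⟨b', hb', hb2⟩ : ∃ b', b' ≤ b ∧ b - i2 = b' := ⟨b - i2, by omega, rfl⟩
  simp only [ha2] at hi1'
  simp only [hb2] at hi2'
  have G1 := g1.dist_eq (a := 0) (b := t) (by omega) ht
  have G2 := g1.dist_eq (a := t) (b := l) ht le_rfl
  rw [g2] at G1
  rw [g3] at G2
  have S1 := h1.dist_eq (a := a) (b := a') ha (by omega)
  have S2 := h2.dist_eq (a := b') (b := b) (by omega) hb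
  have S3 := h1.dist_eq (a := 0) (b := a') (by omega) (by omega)
  have S4 := h2.dist_eq (a := 0) (b := b') (by omega) (by omega)
  have t1 := A.dist_triangle (σ a) (g t) (σ a')
  have t2 := A.dist_triangle (τ b') (g t) (τ b)
  rw [A.dist_comm (τ b') (g t)] at t2
  have t3 := A.dist_triangle (σ 0) (τ 0) (τ b')
  have t4 := A.dist_triangle (σ 0) (τ b') (σ a')
  have t5 := A.dist_triangle (σ 0) (σ a') (τ b')
  have t7 := A.dist_triangle (τ 0) (σ 0) (τ b')
  rw [A.dist_comm (τ 0) (σ 0)] at t7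
  have t6 := A.dist_triangle (σ a') (g t) (τ b')
  rw [A.dist_comm (σ a') (g t)] at t6
  rw [A.dist_comm (τ b') (σ a')] at t4
  unfold fK at hc
  have hca : c ≤ a' := by omega
  have hcb : c ≤ b' := by omega
  -- pass near `σ c`
  set e' := gU F 3 + (gU F (cc 3 e) + e) + e with he'
  have h3 := r1 (cc 1 e') (le_cc 1 e') 0 c a' (by omega) hca (by omega)
  obtain ⟨c'', hc1, hc2⟩ := h3.change (m := 1) le_rfl ((h2.sub (a := 0) (l' := b') (by omega)).congr
    (q' := τ) (by intro i _; simp) |>.qg le_rfl) (by rw [A.dist_comm]; omega)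
    (by rw [A.dist_comm]; omega)
  have S5 := h1.dist_eq (a := 0) (b := c) (by omega) (by omega)
  have S6 := h2.dist_eq (a := 0) (b := c'') (by omega) (by omega)
  have S7 := h2.dist_eq (a := c'') (b := c) (by omega) (by omega)
  have t8 := A.dist_triangle (σ 0) (τ 0) (τ c'')
  have t9 := A.dist_triangle (σ 0) (τ c'') (σ c)
  have t10 := A.dist_triangle (τ 0) (σ 0) (σ c)
  rw [A.dist_comm (τ 0) (σ 0)] at t10
  have t11 := A.dist_triangle (τ 0) (σ c) (τ c'')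
  rw [A.dist_comm (σ c) (τ c'')] at t11
  have t12 := A.dist_triangle (σ c) (τ c'') (τ c)
  rw [A.dist_comm (σ c) (τ c'')] at t12
  unfold fD
  rw [← he']
  omega

/-- Rays which are not close have bounded Gromov products, and so have segments agreeing with
them for a while. -/
theorem prod_bdd {F : ℕ → ℕ} {e T l₁ l₂ : ℕ} {γ γ' σ τ : ℕ → G}
    (hT : fD F e < A.dist (γ T) (γ' T)) (h1 : Geo A l₁ σ) (h2 : Geo A l₂ τ)
    (r1 : RecOn A F l₁ σ) (r2 : RecOn A F l₂ τ) (he : A.dist (σ 0) (τ 0) ≤ e)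
    (e1 : σ T = γ T) (e2 : τ T = γ' T) {a b : ℕ} (ha : a ≤ l₁) (hb : b ≤ l₂) :
    a + b ≤ A.dist (σ a) (τ b) + (2 * T + fK F e) := by
  by_contra hcon
  push Not at hcon
  have := fellow h1 h2 r1 r2 he ha hb (c := T) (by omega)
  rw [e1, e2] at this
  omega

/-- The constant `D₀`. -/
def D0 (F : ℕ → ℕ) (e C m : ℕ) : ℕ := 3 * (gU F (cc (3 * m) e) + e) + C + e

/-- Two recurrent segments from `y` with bounded Gromov product: quasi-geodesics joining their
ends pass near `y`. -/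
theorem junction {F : ℕ → ℕ} {l₁ l₂ e C : ℕ} {σ τ : ℕ → G} {y : G} (h1 : Geo A l₁ σ)
    (h2 : Geo A l₂ τ) (r1 : RecOn A F l₁ σ) (r2 : RecOn A F l₂ τ) (he1 : A.dist (σ 0) y ≤ e)
    (he2 : A.dist (τ 0) y ≤ e)
    (hC : ∀ a ≤ l₁, ∀ b ≤ l₂, a + b ≤ A.dist (σ a) (τ b) + C) {m : ℕ} (hm : 1 ≤ m) :
    R A m (D0 F e C m) (σ l₁) y (τ l₂) := by
  -- the nearest point is close to `σ`
  have key : ∀ (l : ℕ) (σ : ℕ → G), Geo A l σ → RecOn A F l σ → A.dist (σ 0) y ≤ e →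
      ∀ (L t : ℕ) (q : ℕ → G), QG A m L q → q 0 = σ l → t ≤ L →
      (∀ i ≤ t, A.dist (q t) y ≤ A.dist (q i) y) →
      ∃ a ≤ l, A.dist (q t) (σ a) ≤ gU F (cc (3 * m) e) + e := by
    intro l σ h1 r1 he1 L t q hq h0 ht hn
    obtain ⟨p, p1, p2, p3⟩ := exists_geo A (q t) y
    have hq1 := QG.trick hm hq ht hn p1 p2 p3
    have hu1 := (r1.toU h1 (Nat.zero_le l) le_rfl).symm
    obtain ⟨i1, -, hi1, hi1'⟩ := hu1.change (m := 3 * m) (e := e) (by omega) hq1
      (h1.rev.qg (by omega)) (Nat.zero_le _) le_rfl (Nat.zero_le _) (le_refl l)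
      (by rw [app_le (Nat.zero_le _), h0]; simp)
      (by rw [app_add p2, p3, A.dist_comm]; exact he1) (by simp) (by simp) (i := t) (by omega)
      (le_trans (Nat.le_add_right _ _) (le_max_right _ _))
    rw [app_le le_rfl] at hi1'
    exact ⟨l - i1, by omega, hi1'⟩
  intro L q hq h0 hL
  obtain ⟨t, ht, hn⟩ := exists_nearest A L q y
  obtain ⟨a, ha, ha'⟩ := key l₁ σ h1 r1 he1 L t q hq h0 ht (fun i hi => hn i (hi.trans ht))
  have e1 : L - (L - t) = t := by omega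
  obtain ⟨b, hb, hb'⟩ := key l₂ τ h2 r2 he2 L (L - t) (fun i => q (L - i)) hq.rev
    (by simpa using hL) (by omega) (by
      intro i hi
      simp only [e1]
      exact hn _ (by omega))
  simp only [e1] at hb'
  refine ⟨t, ht, ?_⟩
  have := hC a ha b hb
  have t1 := A.dist_triangle (σ a) (q t) (τ b)
  rw [A.dist_comm (σ a) (q t)] at t1
  have t2 := A.dist_triangle (q t) (σ a) y
  have t3 := A.dist_triangle (σ a) (σ 0) y
  have S1 := h1.dist_eq (a := a) (b := 0) ha (by omega)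
  unfold D0
  omega

end Pool.Agent.Y33.Free
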