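import Pool.Agent.Y33.Free.Letters

/-! # Letters, and the main lemma on junctions -/

set_option autoImplicit false

namespace Pool.Agent.Y33.Free

open Pool.Agent.H659R3.MorseLim

variable {G : Type} [Group G] {A : FinGen G}

/-- If a quasi-geodesic passes near `w₁` and then near `w₂`, it can be modified to a
quasi-geodesic from `w₁` to `w₂` with constants independent of the distances. -/
theorem trick2 {m L κ D a₁ a₂ : ℕ} {q : ℕ → G} {w₁ w₂ y : G} (hm : 1 ≤ m) (hq : QG A m L q)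
    (h12 : a₁ ≤ a₂) (h2L : a₂ ≤ L) (h1 : A.dist (q a₁) w₁ ≤ κ) (h2 : A.dist (q a₂) w₂ ≤ κ)
    (hR : R A (3 * (3 * m)) D w₁ y w₂) (d1 : κ + D < A.dist w₁ y) (d2 : κ + D < A.dist w₂ y) :
    ∃ t ≤ L, A.dist (q t) y ≤ D := by
  obtain ⟨s, hs, hn⟩ := exists_nearest A a₂ q w₁
  obtain ⟨g₁, g1, g2, g3⟩ := exists_geo A (q s) w₁
  have hq2 : QG A m a₂ (fun i => q (a₂ - i)) := (hq.take h2L).rev
  have es : a₂ - (a₂ - s) = s := by omega
  have hP := QG.trick (t := a₂ - s) (y := w₁) hm hq2 (by omega) (by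
    intro i hi
    simp only [es]
    exact hn _ (by omega)) g1 (by simp only [es]; exact g2) g3
  have hl1 : A.dist (q s) w₁ ≤ κ := (hn a₁ h12).trans h1
  have happ : ∀ j, app (fun i => q (a₂ - i)) (a₂ - s) g₁ (a₂ - s + j) = g₁ j := fun j =>
    app_add (by simp only [es]; exact g2) j
  set L₁ := a₂ - s + A.dist (q s) w₁ with hL₁
  set P₁ : ℕ → G := fun i => app (fun i => q (a₂ - i)) (a₂ - s) g₁ (L₁ - i) with hP₁
  have hP' : QG A (3 * m) L₁ P₁ := hP.rev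
  have P0 : P₁ 0 = w₁ := by
    simp only [hP₁, Nat.sub_zero]
    rw [hL₁, happ, g3]
  have PL : P₁ L₁ = q a₂ := by
    simp only [hP₁, Nat.sub_self]
    rw [app_le (Nat.zero_le _)]
    simp
  obtain ⟨t, ht, hn'⟩ := exists_nearest A L₁ P₁ w₂
  obtain ⟨g₂, g1', g2', g3'⟩ := exists_geo A (P₁ t) w₂
  have hP2 := QG.trick (m := 3 * m) (y := w₂) (by omega) hP' ht (fun i hi => hn' i (hi.trans ht))
    g1' g2' g3'
  have hl2 : A.dist (P₁ t) w₂ ≤ κ := by
    have := hn' L₁ le_rfl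
    rw [PL] at this
    exact this.trans h2
  obtain ⟨i, hi, hd⟩ := hR _ _ hP2 (by rw [app_le (Nat.zero_le _), P0]) (by rw [app_add g2', g3'])
  rcases le_or_gt i t with hit | hit
  · rw [app_le hit] at hd
    simp only [hP₁] at hd
    rcases le_or_gt (L₁ - i) (a₂ - s) with hc | hc
    · rw [app_le hc] at hd
      exact ⟨_, by omega, hd⟩
    · exfalso
      obtain ⟨j, hj⟩ := Nat.exists_eq_add_of_le hc.le
      rw [hj, happ] at hd
      have e1 := g1.dist_eq (a := j) (b := A.dist (q s) w₁) (by omega) le_rfl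
      rw [g3] at e1
      have t1 := A.dist_triangle w₁ (g₁ j) y
      rw [A.dist_comm w₁ (g₁ j)] at t1
      omega
  · exfalso
    obtain ⟨j, rfl⟩ := Nat.exists_eq_add_of_le hit.le
    rw [app_add g2'] at hd
    have e1 := g1'.dist_eq (a := j) (b := A.dist (P₁ t) w₂) (by omega) le_rfl
    rw [g3'] at e1
    have t1 := A.dist_triangle w₂ (g₂ j) y
    rw [A.dist_comm w₂ (g₂ j)] at t1
    omega

namespace LData

variable (Λ : LData A)

/-- The letter of type `s` and size `n`. -/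
def g (x : S × ℕ) : G := Λ.γ x.1 (Λ.φ x.2) * Λ.k x.1 * (Λ.γ (bar x.1) (Λ.φ x.2))⁻¹

theorem g_bar (s : S) (n : ℕ) : Λ.g (bar s, n) = (Λ.g (s, n))⁻¹ := by
  simp only [g, bar_bar, Λ.k_bar]
  group

/-- The constant for the passage near the middle of a letter. -/
def Dm (m : ℕ) : ℕ := D0 Λ.F Λ.e Λ.C m

theorem R_mid (s : S) (n : ℕ) {m : ℕ} (hm : 1 ≤ m) :
    R A m (Λ.Dm m) 1 (Λ.γ s (Λ.φ n)) (Λ.g (s, n)) := by
  have h := junction (A := A) (F := Λ.F) (e := Λ.e) (C := Λ.C) (y := 1) (l₁ := Λ.φ n)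
    (l₂ := Λ.φ n) (σ := back (Λ.γ s) (Λ.φ n)) (τ := fun a => Λ.k s * back (Λ.γ (bar s)) (Λ.φ n) a)
    (back_geo (Λ.geo s) _)
    ((back_geo (Λ.geo (bar s)) _).mul _) (back_rec (Λ.isRec s) _)
    ((back_rec (Λ.isRec (bar s)) _).mul _) (by rw [back_zero]; simp) (by
      simp only [back_zero, mul_one]
      rw [A.dist_comm, A.dist_one_left]; exact Λ.k_len s)
    (fun a ha b hb => Λ.mid s n a b ha hb) hm
  have h' := h.mul (Λ.γ s (Λ.φ n))
  simp only [back, Nat.sub_self, Λ.zero, mul_one] at h'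
  have e1 : Λ.γ s (Λ.φ n) * (Λ.γ s (Λ.φ n))⁻¹ = 1 := by group
  have e2 : Λ.γ s (Λ.φ n) * (Λ.k s * (Λ.γ (bar s) (Λ.φ n))⁻¹) = Λ.g (s, n) := by
    simp only [g]; group
  rw [e1, e2] at h'
  exact h'

/-- The gauge for the passage of a letter near the initial ray. -/
def F1 (m : ℕ) : ℕ := Λ.F (cc m (Λ.Dm m)) + Λ.Dm m

theorem R_ray (s : S) (n : ℕ) {m K : ℕ} (hm : 1 ≤ m) (hK : K ≤ Λ.φ n) :
    R A m (Λ.F1 m) 1 (Λ.γ s K) (Λ.g (s, n)) := by
  refine (Λ.R_mid s n hm).trans_left hm ?_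
  have := Λ.isRec s (Λ.φ n) (cc m (Λ.Dm m)) (hm.trans (le_cc _ _)) 0 K (Λ.φ n) (Nat.zero_le _) hK
    le_rfl
  rwa [Λ.zero] at this

theorem len_g (s : S) (n : ℕ) : n ≤ A.len (Λ.g (s, n)) + Λ.F1 1 := by
  have h := Λ.R_ray s n (m := 1) le_rfl (le_refl (Λ.φ n))
  obtain ⟨g, g1, g2, g3⟩ := exists_geo A 1 (Λ.g (s, n))
  obtain ⟨t, ht, h1⟩ := h _ g (g1.qg le_rfl) g2 g3
  have e1 := g1.dist_eq (a := 0) (b := t) (by omega) ht
  rw [g2] at e1
  have e2 := (Λ.geo s).dist_eq 0 (Λ.φ n)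
  rw [Λ.zero] at e2
  have t1 := A.dist_triangle 1 (g t) (Λ.γ s (Λ.φ n))
  rw [A.dist_one_left (Λ.g (s, n))] at ht
  have := Λ.φ_ge n
  omega

/-- The `U`-gauge of letters. -/
def MU (m : ℕ) : ℕ :=
  (fun m => gU Λ.F m + (m * (m * Λ.e + m) + m)) (cc m (Λ.Dm m + Λ.e)) + (Λ.Dm m + Λ.e)

theorem U_letter (x : S × ℕ) : U A Λ.MU 1 (Λ.g x) := by
  obtain ⟨s, n⟩ := x
  set v : ℕ → G := fun i => if i = 0 then 1 else if i = 1 then Λ.γ s (Λ.φ n) else
    if i = 2 then Λ.γ s (Λ.φ n) * Λ.k s else Λ.g (s, n) with hv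
  have v0 : v 0 = 1 := by simp [hv]
  have v1 : v 1 = Λ.γ s (Λ.φ n) := by simp [hv]
  have v2 : v 2 = Λ.γ s (Λ.φ n) * Λ.k s := by simp [hv]
  have v3 : v 3 = Λ.g (s, n) := by simp [hv]
  have hk : A.dist (Λ.γ s (Λ.φ n)) (Λ.γ s (Λ.φ n) * Λ.k s) ≤ Λ.e := by
    rw [FinGen.dist]
    have : (Λ.γ s (Λ.φ n))⁻¹ * (Λ.γ s (Λ.φ n) * Λ.k s) = Λ.k s := by group
    rw [this]; exact Λ.k_len s
  have := U.chain (A := A) (M := fun m => gU Λ.F m + (m * (m * Λ.e + m) + m))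
    (E := fun m => Λ.Dm m + Λ.e) (n := 3) (by omega) (v := v) ?_ ?_
  · rw [v0, v3] at this
    exact this
  · intro i hi
    have hi' : i = 0 ∨ i = 1 ∨ i = 2 := by omega
    rcases hi' with rfl | rfl | rfl
    · rw [v0, v1, ← Λ.zero s]
      exact ((Λ.isRec s (Λ.φ n)).toU (Λ.geo s (Λ.φ n)) (Nat.zero_le _) le_rfl).mono fun m => by
        omega
    · rw [v1, v2]
      exact (U.of_dist hk).mono fun m => by omega
    · rw [v2, v3]
      have h1 := ((Λ.isRec (bar s) (Λ.φ n)).toU (Λ.geo (bar s) (Λ.φ n)) (Nat.zero_le _) le_rfl).symm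
      have h2 := h1.mul (Λ.γ s (Λ.φ n) * Λ.k s * (Λ.γ (bar s) (Λ.φ n))⁻¹)
      have e1 : Λ.γ s (Λ.φ n) * Λ.k s * (Λ.γ (bar s) (Λ.φ n))⁻¹ * Λ.γ (bar s) (Λ.φ n) =
          Λ.γ s (Λ.φ n) * Λ.k s := by group
      rw [e1, Λ.zero, mul_one] at h2
      exact h2.mono fun m => by omega
  · intro m hm i hi
    have hi' : i = 0 ∨ i = 1 ∨ i = 2 ∨ i = 3 := by omega
    rw [v0, v3]
    rcases hi' with rfl | rfl | rfl | rfl
    · rw [v0]; exact R.left _ _ _ _ _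
    · rw [v1]; exact (Λ.R_mid s n hm).mono le_rfl (by omega)
    · rw [v2]; exact (Λ.R_mid s n hm).mid hk
    · rw [v3]; exact R.right _ _ _ _ _

/-- `m`-quasi-geodesics from `1` to `x` pass within `κ` of the first `φ n` points of the ray of
type `s`. -/
def Front (m κ : ℕ) (x : S × ℕ) (z : G) : Prop := ∀ K ≤ Λ.φ x.2, R A m κ 1 (Λ.γ x.1 K) z

/-- The constant of junctions. -/
def D1 (m : ℕ) : ℕ := D0 Λ.F 0 Λ.C (3 * (3 * m))

/-- The required size of letters. -/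
def K0 (κ m : ℕ) : ℕ := 4 * κ + gU Λ.F (cc (3 * m) κ) + Λ.C + Λ.D1 m + 1

variable {Λ}

theorem Front.mono {m m' κ κ' : ℕ} {x : S × ℕ} {z : G} (h : Λ.Front m κ x z) (hm : m' ≤ m)
    (hκ : κ ≤ κ') : Λ.Front m' κ' x z := fun K hK => (h K hK).mono hm hκ

theorem bad_side {m κ K L t i₁ : ℕ} {s : S} {q g : ℕ → G} {l : ℕ} (hm : 1 ≤ m)
    (hq : QG A m L q) (ht : t ≤ L) (hn : ∀ i ≤ t, A.dist (q t) 1 ≤ A.dist (q i) 1)
    (hg : Geo A l g) (g0 : g 0 = q t) (gl : g l = 1) (hi : i₁ ≤ t)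
    (hd : A.dist (q i₁) (Λ.γ s K) ≤ κ) {j : ℕ} (hj : j ≤ l) :
    ∃ b ≤ K, A.dist (g j) (Λ.γ s b) ≤ gU Λ.F (cc (3 * m) κ) + κ := by
  have hP := QG.trick hm hq ht hn hg g0 gl
  have hu := ((Λ.isRec s K).toU (Λ.geo s K) (Nat.zero_le K) le_rfl).symm
  obtain ⟨i, -, hi2, hi3⟩ := hu.change (m := 3 * m) (e := κ) (by omega) hP
    (((Λ.geo s) K).rev.qg (by omega)) (s := i₁) (t := t + l) (by omega) le_rfl (Nat.zero_le _)
    (le_refl K) (by rw [app_le hi]; exact hd) (by rw [app_add g0, gl, Λ.zero]; simp)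
    (by simp) (by simp) (i := t + j) (by omega) (by
      exact le_trans (by omega) (le_max_right _ _))
  rw [app_add g0] at hi3
  exact ⟨K - i, by omega, hi3⟩

/-- The main lemma on junctions: the constant does not depend on `κ`. -/
theorem main_junction {m κ : ℕ} {x x' : S × ℕ} {z z' : G} (hm : 1 ≤ m) (hs : x.1 ≠ x'.1)
    (h : Λ.Front (3 * m) κ x z) (h' : Λ.Front (3 * m) κ x' z') (hK : Λ.K0 κ m ≤ x.2)
    (hK' : Λ.K0 κ m ≤ x'.2) : R A m (Λ.D1 m) z 1 z' := by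
  set K := Λ.K0 κ m with hKdef
  have hKe : K = 4 * κ + gU Λ.F (cc (3 * m) κ) + Λ.C + Λ.D1 m + 1 := rfl
  have ha := h K (hK.trans (Λ.φ_ge _))
  have hb := h' K (hK'.trans (Λ.φ_ge _))
  have hc : R A (3 * (3 * m)) (Λ.D1 m) (Λ.γ x.1 K) 1 (Λ.γ x'.1 K) :=
    junction (A := A) (F := Λ.F) (e := 0) (C := Λ.C) (y := 1) (Λ.geo x.1 K) (Λ.geo x'.1 K)
      (Λ.isRec x.1 K) (Λ.isRec x'.1 K) (by rw [Λ.zero]; simp) (by rw [Λ.zero]; simp)
      (fun a _ b _ => Λ.main x.1 x'.1 hs a b) (by omega)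
  have n1 : A.dist (Λ.γ x.1 K) 1 = K := by
    have := (Λ.geo x.1).dist_eq K 0
    rw [Λ.zero] at this
    omega
  have n2 : A.dist (Λ.γ x'.1 K) 1 = K := by
    have := (Λ.geo x'.1).dist_eq K 0
    rw [Λ.zero] at this
    omega
  intro L q hq h0 hL
  obtain ⟨t, ht, hn⟩ := exists_nearest A L q 1
  obtain ⟨g, g1, g2, g3⟩ := exists_geo A (q t) 1
  set l := A.dist (q t) 1 with hl
  have hp1 := QG.trick (t := t) (y := 1) hm hq ht (fun i hi => hn i (hi.trans ht)) g1 g2 g3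
  have es : L - (L - t) = t := by omega
  have hn2 : ∀ i ≤ L - t, A.dist ((fun i => q (L - i)) (L - t)) 1 ≤
      A.dist ((fun i => q (L - i)) i) 1 := by
    intro i hi
    simp only [es]
    exact hn _ (by omega)
  have g2' : g 0 = (fun i => q (L - i)) (L - t) := by simp only [es]; exact g2
  have hp2 := QG.trick (t := L - t) (y := 1) hm hq.rev (by omega) hn2 g1 g2' g3
  obtain ⟨i₁, b1, b2⟩ := ha.symm _ _ hp1 (by rw [app_le (Nat.zero_le _), h0])
    (by rw [app_add g2, g3])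
  obtain ⟨i₂, c1, c2⟩ := hb.symm _ _ hp2 (by rw [app_le (Nat.zero_le _)]; simpa using hL)
    (by rw [app_add (q := fun i => q (L - i)) g2', g3])
  rcases le_or_gt i₁ t with d1 | d1
  · rw [app_le d1] at b2
    rcases le_or_gt i₂ (L - t) with d2 | d2
    · rw [app_le d2] at c2
      exact trick2 hm hq (a₁ := i₁) (a₂ := L - i₂) (by omega) (by omega) b2 c2 hc (by omega)
        (by omega)
    · exfalso
      obtain ⟨j, rfl⟩ := Nat.exists_eq_add_of_le d2.le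
      rw [app_add (q := fun i => q (L - i)) g2'] at c2
      obtain ⟨b, hb1, hb2⟩ := bad_side hm hq ht (fun i hi => hn i (hi.trans ht)) g1 g2 g3 d1 b2
        (j := j) (by omega)
      have t1 := A.dist_triangle (Λ.γ x.1 b) (g j) (Λ.γ x'.1 K)
      rw [A.dist_comm (Λ.γ x.1 b) (g j)] at t1
      have t2 := Λ.main x.1 x'.1 hs b K
      omega
  · obtain ⟨j, rfl⟩ := Nat.exists_eq_add_of_le d1.le
    rw [app_add g2] at b2
    rcases le_or_gt i₂ (L - t) with d2 | d2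
    · exfalso
      rw [app_le d2] at c2
      obtain ⟨b, hb1, hb2⟩ := bad_side hm hq.rev (t := L - t) (by omega) hn2 g1 g2' g3 d2 c2
        (j := j) (by omega)
      have t1 := A.dist_triangle (Λ.γ x'.1 b) (g j) (Λ.γ x.1 K)
      rw [A.dist_comm (Λ.γ x'.1 b) (g j)] at t1
      have t2 := Λ.main x'.1 x.1 hs.symm b K
      omega
    · exfalso
      obtain ⟨j', rfl⟩ := Nat.exists_eq_add_of_le d2.le
      rw [app_add (q := fun i => q (L - i)) g2'] at c2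
      have e1 := g1.dist_eq (a := j) (b := l) (by omega) le_rfl
      have e2 := g1.dist_eq (a := j') (b := l) (by omega) le_rfl
      have e3 := g1.dist_eq (a := j) (b := j') (by omega) (by omega)
      rw [g3] at e1 e2
      have t1 := A.dist_triangle (Λ.γ x.1 K) (g j) (Λ.γ x'.1 K)
      have t2 := A.dist_triangle (g j) (g j') (Λ.γ x'.1 K)
      rw [A.dist_comm (Λ.γ x.1 K) (g j)] at t1
      have t3 := A.dist_triangle (Λ.γ x.1 K) (g j) 1
      have t4 := A.dist_triangle (Λ.γ x'.1 K) (g j') 1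
      rw [A.dist_comm (Λ.γ x.1 K) (g j)] at t3
      rw [A.dist_comm (Λ.γ x'.1 K) (g j')] at t4
      have t5 := A.dist_triangle (g j) (Λ.γ x.1 K) 1
      have t6 := A.dist_triangle (g j') (Λ.γ x'.1 K) 1
      have t7 := Λ.main x.1 x'.1 hs K K
      omega

end LData

end Pool.Agent.Y33.Free
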